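import Mathlib

set_option autoImplicit false

/-!
# Tic-Tac-Toe on `[n]^d`

The points of the board `[n]^d` are the functions `Fin d → Fin n`.
-/

namespace Pool.Agent.TTT

/-- The geometric lines of `[n]^d`: the sets of the points `x 0, …, x (n - 1)`, where each
coordinate is constant, or equal to `t` at `x t`, or equal to `n - 1 - t` at `x t`, and at least
one coordinate is not constant. -/
def IsLine (n d : ℕ) (l : Finset (Fin d → Fin n)) : Prop :=
  ∃ x : Fin n → Fin d → Fin n,
    (∀ i, (∃ a, ∀ t, x t i = a) ∨ (∀ t, x t i = t) ∨ (∀ t, x t i = Fin.rev t)) ∧
    (∃ i, ¬ ∃ a, ∀ t, x t i = a) ∧
    l = Finset.univ.image x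

/-- A proper halving 2-colouring of `[n]^d` (a drawing position): the sizes of the two colour
classes differ by at most one, and no geometric line is monochromatic. -/
def IsDrawing (n d : ℕ) (c : (Fin d → Fin n) → Bool) : Prop :=
  ((Finset.univ.filter fun x => c x = true).card ≤
      (Finset.univ.filter fun x => c x = false).card + 1 ∧
    (Finset.univ.filter fun x => c x = false).card ≤
      (Finset.univ.filter fun x => c x = true).card + 1) ∧
  ∀ l, IsLine n d l → ∀ b : Bool, ∃ x ∈ l, c x ≠ b

variable {V : Type} [DecidableEq V]

/-- The first player is to move; he owns the points of `X`, the second player owns the points of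
`O`, and nobody owns a whole line.  `FirstWins line X O` says that the first player can force to
be the first to own a whole line. -/
inductive FirstWins (line : Finset V → Prop) : Finset V → Finset V → Prop
  /-- the first player takes the free point `v` and owns a whole line -/
  | win (X O : Finset V) (v : V) (hX : v ∉ X) (hO : v ∉ O)
      (h : ∃ l, line l ∧ l ⊆ insert v X) : FirstWins line X O
  /-- the first player takes the free point `v`; there is still a free point, no reply gives the
  second player a whole line, and after each reply the first player can force a win -/
  | move (X O : Finset V) (v : V) (hX : v ∉ X) (hO : v ∉ O)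
      (hfree : ∃ w, w ∉ insert v X ∧ w ∉ O)
      (hno : ∀ w, w ∉ insert v X → w ∉ O → ¬ ∃ l, line l ∧ l ⊆ insert w O)
      (hwin : ∀ w, w ∉ insert v X → w ∉ O → FirstWins line (insert v X) (insert w O)) :
      FirstWins line X O

/-- The first player is to move; he owns the points of `X` and the second player owns the points
of `O`.  `WeakWins line X O` says that the first player can force to own a whole line at some time
(hence also when the board is full), whatever the second player owns. -/
inductive WeakWins (line : Finset V → Prop) : Finset V → Finset V → Prop
  /-- the first player takes the free point `v` and owns a whole line -/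
  | own (X O : Finset V) (v : V) (hX : v ∉ X) (hO : v ∉ O)
      (h : ∃ l, line l ∧ l ⊆ insert v X) : WeakWins line X O
  /-- the first player takes the free point `v`; there is still a free point, and after each
  reply the first player can force a weak win -/
  | move (X O : Finset V) (v : V) (hX : v ∉ X) (hO : v ∉ O)
      (hfree : ∃ w, w ∉ insert v X ∧ w ∉ O)
      (hwin : ∀ w, w ∉ insert v X → w ∉ O → WeakWins line (insert v X) (insert w O)) :
      WeakWins line X O

end Pool.Agent.TTT
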