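import Pool.Agent.TTT.Board

set_option autoImplicit false

/-!
# Drawing positions
-/

namespace Pool.Agent.TTT

/-- a proper colouring of `[4]^4` which is antisymmetric under `x ↦ 3 - x` -/
def dmask : Nat := 0xde28e1288784147bebd7112c7c887c88eec1eec1cb77142821d7de1eeb78eb84

theorem dmask_proper : allB (fun a => allB (fun b => allB (fun c => allB (fun d =>
    (Nat.ble a 3 && (Nat.ble b 3 && (Nat.ble c 3 && Nat.ble d 3))) ||
      (!(Nat.beq (Nat.land (mask a b c d) dmask) 0) &&
        !(Nat.beq (Nat.land (mask a b c d) dmask) (mask a b c d)))) 6) 6) 6) 6 = true := by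
  decide +kernel

theorem dmask_anti : ∀ i : Fin 256, dmask.testBit (255 - i.val) = !(dmask.testBit i.val) := by
  decide +kernel

def dcol (x : Fin 4 → Fin 4) : Bool := dmask.testBit (code x)

theorem dcol_rev (x : Fin 4 → Fin 4) : dcol (fun i => Fin.rev (x i)) = !(dcol x) := by
  unfold dcol
  have h : code (fun i => Fin.rev (x i)) = 255 - code x := by
    unfold code
    simp only [Fin.val_rev]
    have h0 := (x 0).isLt
    have h1 := (x 1).isLt
    have h2 := (x 2).isLt
    have h3 := (x 3).isLt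
    omega
  rw [h]
  exact dmask_anti ⟨code x, code_lt x⟩

theorem dcol_proper (l : Finset (Fin 4 → Fin 4)) (hl : IsLine 4 4 l) (b : Bool) :
    ∃ x ∈ l, dcol x ≠ b := by
  obtain ⟨k, hk1, ⟨i0, hi0⟩, rfl⟩ := pv_of_isLine l hl
  have h1 := allB_spec _ _ (allB_spec _ _ (allB_spec _ _ (allB_spec _ _ dmask_proper (k 0) (hk1 0))
    (k 1) (hk1 1)) (k 2) (hk1 2)) (k 3) (hk1 3)
  rw [Bool.or_eq_true] at h1
  rcases h1 with h1 | h1
  · exfalso
    simp only [Bool.and_eq_true, Nat.ble_eq] at h1
    fin_cases i0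
    · have h2 : 4 ≤ k 0 := hi0
      omega
    · have h2 : 4 ≤ k 1 := hi0
      omega
    · have h2 : 4 ≤ k 2 := hi0
      omega
    · have h2 : 4 ≤ k 3 := hi0
      omega
  · rw [Bool.and_eq_true, Bool.not_eq_true', Bool.not_eq_true', Bool.eq_false_iff,
      Bool.eq_false_iff, Ne, Ne, Nat.beq_eq, Nat.beq_eq, land_eq] at h1
    obtain ⟨h2, h3⟩ := h1
    cases b
    · obtain ⟨i, hi⟩ := Nat.exists_testBit_of_ne_zero h2
      rw [Nat.testBit_and, Bool.and_eq_true] at hi
      obtain ⟨w, hw, rfl⟩ := (mask_pv k i).1 hi.1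
      refine ⟨w, hw, ?_⟩
      unfold dcol
      rw [hi.2]
      simp
    · by_contra hc
      push Not at hc
      apply h3
      apply Nat.eq_of_testBit_eq
      intro i
      rw [Nat.testBit_and]
      cases hm : (mask (k 0) (k 1) (k 2) (k 3)).testBit i
      · rfl
      · obtain ⟨w, hw, rfl⟩ := (mask_pv k i).1 hm
        have := hc w hw
        unfold dcol at this
        rw [this]
        rfl

/-- drawing positions of `[4]^d` for `1 ≤ d ≤ 4` -/
theorem exists_drawing (d : ℕ) (h1 : 1 ≤ d) (h4 : d ≤ 4) : ∃ c, IsDrawing 4 d c := by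
  have hlt : ∀ i : Fin 4, min i.val (d - 1) < d := by intro i; omega
  set g : (Fin d → Fin 4) → (Fin 4 → Fin 4) := fun x i => x ⟨min i.val (d - 1), hlt i⟩ with hg
  refine ⟨fun x => dcol (g x), ?_, ?_⟩
  · have hcard : (Finset.univ.filter fun x : Fin d → Fin 4 => dcol (g x) = true).card =
        (Finset.univ.filter fun x : Fin d → Fin 4 => dcol (g x) = false).card := by
      have hrev : ∀ x : Fin d → Fin 4, dcol (g fun i => Fin.rev (x i)) = !(dcol (g x)) :=
        fun x => dcol_rev (g x)
      apply Finset.card_bij (fun x _ => fun i => Fin.rev (x i))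
      · intro x hx
        rw [Finset.mem_filter] at hx ⊢
        refine ⟨Finset.mem_univ _, ?_⟩
        rw [hrev, hx.2]; rfl
      · intro x _ y _ hxy
        funext i
        exact Fin.rev_injective (congrFun hxy i)
      · intro y hy
        rw [Finset.mem_filter] at hy
        refine ⟨fun i => Fin.rev (y i), ?_, ?_⟩
        · rw [Finset.mem_filter]
          refine ⟨Finset.mem_univ _, ?_⟩
          rw [hrev, hy.2]; rfl
        · funext i
          exact Fin.rev_rev _
    exact ⟨hcard.le.trans (Nat.le_succ _), hcard.ge.trans (Nat.le_succ _)⟩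
  · intro l hl b
    have hl' : IsLine 4 4 (l.image g) := by
      obtain ⟨x, h1, ⟨i, hi⟩, rfl⟩ := hl
      refine ⟨fun t => g (x t), fun j => h1 _, ⟨⟨i.val, by omega⟩, ?_⟩, ?_⟩
      · rintro ⟨a, ha⟩
        apply hi
        refine ⟨a, fun t => ?_⟩
        have h3 := ha t
        have h2 : (⟨min i.val (d - 1), hlt ⟨i.val, by omega⟩⟩ : Fin d) = i := by
          apply Fin.ext
          show min i.val (d - 1) = i.val
          omega
        change x t ⟨min i.val (d - 1), _⟩ = a at h3
        rw [h2] at h3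
        exact h3
      · rw [Finset.image_image]
        rfl
    obtain ⟨y, hy, hyb⟩ := dcol_proper _ hl' b
    rw [Finset.mem_image] at hy
    obtain ⟨x, hx, rfl⟩ := hy
    exact ⟨x, hx, hyb⟩

end Pool.Agent.TTT
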