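import Pool.Agent.TTT.Defs

set_option autoImplicit false

/-!
# Weak wins in higher dimension
-/

namespace Pool.Agent.TTT

variable {V W : Type} [DecidableEq V] [DecidableEq W]

theorem FirstWins.exists_line {line : Finset V → Prop} {A B : Finset V}
    (h : FirstWins line A B) (hd : Disjoint A B) : ∃ l, line l ∧ Disjoint l B := by
  induction h with
  | win A B v _ hO hl =>
    obtain ⟨l, hl, hsub⟩ := hl
    refine ⟨l, hl, ?_⟩
    rw [Finset.disjoint_left]
    intro x hx hxB
    rcases Finset.mem_insert.1 (hsub hx) with h1 | h1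
    · rw [h1] at hxB; exact hO hxB
    · exact Finset.disjoint_left.1 hd h1 hxB
  | move A B v _ hO hfree _ _ ih =>
    obtain ⟨w, hw1, hw2⟩ := hfree
    obtain ⟨l, hl, hlB⟩ := ih w hw1 hw2 (by
      rw [Finset.disjoint_insert_right]
      refine ⟨hw1, ?_⟩
      rw [Finset.disjoint_insert_left]
      exact ⟨hO, hd⟩)
    exact ⟨l, hl, Finset.disjoint_of_subset_right (Finset.subset_insert _ _) hlB⟩

theorem weak_of_first {line : Finset V → Prop} {line' : Finset W → Prop} (f : V → W)
    (hf : Function.Injective f) (hline : ∀ l, line l → line' (l.image f)) {A B : Finset V}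
    (h : FirstWins line A B) : ∀ A' B' : Finset W, Disjoint A B → Disjoint A' B' →
      (∀ a ∈ A, f a ∈ A') → (∀ v, f v ∈ B' → v ∈ B) → (∃ w, w ∉ A' ∧ w ∉ B') →
      WeakWins line' A' B' := by
  induction h with
  | win A B v _ hO hl =>
    intro A' B' hd hd' hA hB hfree
    obtain ⟨l, hl, hsub⟩ := hl
    have hvB : f v ∉ B' := fun h => hO (hB v h)
    by_cases hv : f v ∈ A'
    · obtain ⟨w, hw1, hw2⟩ := hfree
      refine WeakWins.own _ _ w hw1 hw2 ⟨l.image f, hline l hl, ?_⟩
      intro y hy
      rw [Finset.mem_image] at hy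
      obtain ⟨x, hx, rfl⟩ := hy
      rcases Finset.mem_insert.1 (hsub hx) with h1 | h1
      · rw [h1]; exact Finset.mem_insert_of_mem hv
      · exact Finset.mem_insert_of_mem (hA x h1)
    · refine WeakWins.own _ _ (f v) hv hvB ⟨l.image f, hline l hl, ?_⟩
      intro y hy
      rw [Finset.mem_image] at hy
      obtain ⟨x, hx, rfl⟩ := hy
      rcases Finset.mem_insert.1 (hsub hx) with h1 | h1
      · rw [h1]; exact Finset.mem_insert_self _ _
      · exact Finset.mem_insert_of_mem (hA x h1)
  | move A B v _ hO hfr _ hwin ih =>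
    intro A' B' hd hd' hA hB hfree
    have hvB : f v ∉ B' := fun h => hO (hB v h)
    -- the move
    obtain ⟨v', hv1, hv2, hv3⟩ : ∃ v', v' ∉ A' ∧ v' ∉ B' ∧ f v ∈ insert v' A' := by
      by_cases hv : f v ∈ A'
      · obtain ⟨w, hw1, hw2⟩ := hfree
        exact ⟨w, hw1, hw2, Finset.mem_insert_of_mem hv⟩
      · exact ⟨f v, hv, hvB, Finset.mem_insert_self _ _⟩
    have hA2 : ∀ a ∈ insert v A, f a ∈ insert v' A' := by
      intro a ha
      rcases Finset.mem_insert.1 ha with h1 | h1
      · rw [h1]; exact hv3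
      · exact Finset.mem_insert_of_mem (hA a h1)
    by_cases hown : ∃ l', line' l' ∧ l' ⊆ insert v' A'
    · exact WeakWins.own _ _ v' hv1 hv2 hown
    -- a line remains open
    have hopen : ∀ (C : Finset V) (C' : Finset W), FirstWins line (insert v A) C →
        Disjoint (insert v A) C → (∀ x, f x ∈ C' → x ∈ C) → ∃ y, y ∉ insert v' A' ∧ y ∉ C' := by
      intro C C' h1 h2 h3
      obtain ⟨l, hl, hlC⟩ := h1.exists_line h2
      by_contra hc
      push Not at hc
      apply hown
      refine ⟨l.image f, hline l hl, ?_⟩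
      intro y hy
      by_contra hy'
      have h4 := hc y hy'
      rw [Finset.mem_image] at hy
      obtain ⟨x, hx, rfl⟩ := hy
      exact Finset.disjoint_left.1 hlC hx (h3 x h4)
    have hdis : ∀ w, w ∉ insert v A → Disjoint (insert v A) (insert w B) := by
      intro w hw
      rw [Finset.disjoint_insert_right]
      refine ⟨hw, ?_⟩
      rw [Finset.disjoint_insert_left]
      exact ⟨hO, hd⟩
    obtain ⟨w0, hw0, hw0'⟩ := hfr
    refine WeakWins.move _ _ v' hv1 hv2 ?_ ?_
    · obtain ⟨y, hy1, hy2⟩ := hopen (insert w0 B) B' (hwin w0 hw0 hw0') (hdis w0 hw0)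
        (fun x hx => Finset.mem_insert_of_mem (hB x hx))
      exact ⟨y, hy1, hy2⟩
    · intro w' hw1 hw2
      -- the virtual reply
      obtain ⟨w, hwA, hwB, hww⟩ : ∃ w, w ∉ insert v A ∧ w ∉ B ∧ ∀ x, f x = w' → x ∈ insert w B := by
        by_cases h1 : ∃ x, f x = w' ∧ x ∉ B
        · obtain ⟨x, hx1, hx2⟩ := h1
          refine ⟨x, ?_, hx2, ?_⟩
          · intro hx
            apply hw1
            rw [← hx1]
            exact hA2 x hx
          · intro y hy
            rw [← hx1] at hy
            rw [hf hy]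
            exact Finset.mem_insert_self _ _
        · push Not at h1
          exact ⟨w0, hw0, hw0', fun x hx => Finset.mem_insert_of_mem (h1 x hx)⟩
      have hB2 : ∀ x, f x ∈ insert w' B' → x ∈ insert w B := by
        intro x hx
        rcases Finset.mem_insert.1 hx with h1 | h1
        · exact hww x h1
        · exact Finset.mem_insert_of_mem (hB x h1)
      apply ih w hwA hwB (insert v' A') (insert w' B') (hdis w hwA)
      · rw [Finset.disjoint_insert_right]
        refine ⟨hw1, ?_⟩
        rw [Finset.disjoint_insert_left]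
        exact ⟨hv2, hd'⟩
      · exact hA2
      · exact hB2
      · exact hopen (insert w B) (insert w' B') (hwin w hwA hwB) (hdis w hwA) hB2

/-- a first-player win on `[n]^d` gives a weak win in all higher dimensions -/
theorem weak_up (n d : ℕ) (hn : 0 < n) (hd : 0 < d) (h : FirstWins (IsLine n d) ∅ ∅) (D : ℕ)
    (hD : d ≤ D) : WeakWins (IsLine n D) ∅ ∅ := by
  have hlt : ∀ i : Fin D, min i.val (d - 1) < d := by intro i; omega
  refine weak_of_first (fun x i => x ⟨min i.val (d - 1), hlt i⟩) ?_ ?_ h ∅ ∅ (by simp) (by simp)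
    (by simp) (by simp) ⟨fun _ => ⟨0, hn⟩, by simp, by simp⟩
  · intro x y hxy
    funext i
    have h1 := congrFun hxy ⟨i.val, by omega⟩
    have h2 : (⟨min i.val (d - 1), hlt ⟨i.val, by omega⟩⟩ : Fin d) = i := by
      apply Fin.ext
      show min i.val (d - 1) = i.val
      omega
    change x ⟨min i.val (d - 1), _⟩ = y ⟨min i.val (d - 1), _⟩ at h1
    rw [h2] at h1
    exact h1
  · rintro l ⟨x, h1, ⟨i, hi⟩, rfl⟩
    refine ⟨fun t j => x t ⟨min j.val (d - 1), hlt j⟩, fun j => h1 _, ⟨⟨i.val, by omega⟩, ?_⟩, ?_⟩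
    · rintro ⟨a, ha⟩
      apply hi
      refine ⟨a, fun t => ?_⟩
      have h3 := ha t
      have h2 : (⟨min i.val (d - 1), hlt ⟨i.val, by omega⟩⟩ : Fin d) = i := by
        apply Fin.ext
        show min i.val (d - 1) = i.val
        omega
      change x t ⟨min i.val (d - 1), _⟩ = a at h3
      rw [h2] at h3
      exact h3
    · rw [Finset.image_image]
      rfl

end Pool.Agent.TTT
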