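import Mathlib

set_option autoImplicit false

namespace Pool.Agent.TTT

/-- `b &&& (b - 1)` is `b` without its lowest bit -/
theorem low (b : Nat) (h : b ≠ 0) : ∃ l, b.testBit l = true ∧
    ∀ i, (b &&& (b - 1)).testBit i = (b.testBit i && decide (i ≠ l)) := by
  induction b using Nat.strong_induction_on with
  | _ b ih =>
    rcases Nat.even_or_odd' b with ⟨c, hc | hc⟩
    · have hc0 : c ≠ 0 := by omega
      obtain ⟨l, h1, h2⟩ := ih c (by omega) hc0
      refine ⟨l + 1, ?_, ?_⟩
      · rw [hc, Nat.testBit_succ]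
        have : 2 * c / 2 = c := by omega
        rw [this]; exact h1
      · intro i
        rcases i with _ | i
        · rw [hc]
          simp [Nat.testBit_zero]
        · rw [hc, Nat.testBit_and, Nat.testBit_succ, Nat.testBit_succ]
          have e1 : 2 * c / 2 = c := by omega
          have e2 : (2 * c - 1) / 2 = c - 1 := by omega
          rw [e1, e2, ← Nat.testBit_and, h2 i]
          simp
    · refine ⟨0, ?_, ?_⟩
      · rw [hc]; simp [Nat.testBit_zero]
      · intro i
        rcases i with _ | i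
        · rw [hc]; simp [Nat.testBit_zero]
        · rw [hc, Nat.testBit_and, Nat.testBit_succ, Nat.testBit_succ]
          have e1 : (2 * c + 1) / 2 = c := by omega
          have e2 : (2 * c + 1 - 1) / 2 = c := by omega
          rw [e1, e2]
          simp

/-- at most one bit -/
theorem one_of_low (b : Nat) (h : b &&& (b - 1) = 0) (i j : Nat) (hi : b.testBit i = true)
    (hj : b.testBit j = true) : i = j := by
  have hb : b ≠ 0 := by rintro rfl; simp at hi
  obtain ⟨l, _, h2⟩ := low b hb
  have h3 := h2 i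
  have h4 := h2 j
  rw [h, Nat.zero_testBit, hi] at h3
  rw [h, Nat.zero_testBit, hj] at h4
  simp at h3 h4
  rw [h3, h4]

/-- at least two bits -/
theorem two_of_low (b : Nat) (h : b &&& (b - 1) ≠ 0) : ∃ i j, i ≠ j ∧ b.testBit i = true ∧
    b.testBit j = true := by
  have hb : b ≠ 0 := by rintro rfl; simp at h
  obtain ⟨l, h1, h2⟩ := low b hb
  obtain ⟨k, hk⟩ := Nat.exists_testBit_of_ne_zero h
  have h3 := h2 k
  rw [hk] at h3
  simp at h3
  exact ⟨l, k, fun e => h3.2 e.symm, h1, h3.1⟩

/-- at most two bits -/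
theorem two_of_low2 (b : Nat) (h : (b &&& (b - 1)) &&& ((b &&& (b - 1)) - 1) = 0) (i j k : Nat)
    (hij : i ≠ j) (hik : i ≠ k) (hjk : j ≠ k) (hi : b.testBit i = true)
    (hj : b.testBit j = true) (hk : b.testBit k = true) : False := by
  have hb : b ≠ 0 := by rintro rfl; simp at hi
  obtain ⟨l, _, h2⟩ := low b hb
  have key : ∀ x, b.testBit x = true → x ≠ l → (b &&& (b - 1)).testBit x = true := by
    intro x hx hxl
    rw [h2 x, hx]
    simp [hxl]
  by_cases c1 : i = l
  · exact hjk (one_of_low _ h j k (key j hj (by rw [← c1]; exact hij.symm))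
      (key k hk (by rw [← c1]; exact hik.symm)))
  · by_cases c2 : j = l
    · exact hik (one_of_low _ h i k (key i hi c1) (key k hk (by rw [← c2]; exact hjk.symm)))
    · exact hij (one_of_low _ h i j (key i hi c1) (key j hj c2))

/-- at least three bits -/
theorem three_of_low2 (b : Nat) (h : (b &&& (b - 1)) &&& ((b &&& (b - 1)) - 1) ≠ 0) :
    ∃ i j k, i ≠ j ∧ i ≠ k ∧ j ≠ k ∧ b.testBit i = true ∧ b.testBit j = true ∧
      b.testBit k = true := by
  obtain ⟨i, j, hij, hi, hj⟩ := two_of_low _ h
  have hb : b ≠ 0 := by rintro rfl; simp at hi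
  obtain ⟨l, h1, h2⟩ := low b hb
  have h3 := h2 i
  have h4 := h2 j
  rw [hi] at h3
  rw [hj] at h4
  simp at h3 h4
  exact ⟨i, j, l, hij, h3.2, h4.2, h3.1, h4.1, h1⟩

/-- a single bit -/
theorem single_bit (e : Nat) (h0 : e ≠ 0) (h : e &&& (e - 1) = 0) :
    e.testBit e.log2 = true ∧ ∀ i, e.testBit i = true → i = e.log2 := by
  have h1 : e.testBit e.log2 = true := Nat.testBit_log2 h0
  exact ⟨h1, fun i hi => one_of_low e h i e.log2 hi h1⟩

end Pool.Agent.TTT
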