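import Pool.Agent.TTT.Core

set_option autoImplicit false

/-!
# The table of the lines of `[4]^4`
-/

namespace Pool.Agent.TTT

/-- value of a coordinate of type `k` at time `t` -/
def val (k t : Nat) : Nat := bif Nat.ble k 3 then k else bif Nat.beq k 4 then t else 3 - t

/-- code of the point at time `t` of a line of type `(a, b, c, d)` -/
def pt (a b c d t : Nat) : Nat := val a t + 4 * val b t + 16 * val c t + 64 * val d t

/-- the points of a line as bits -/
def mask (a b c d : Nat) : Nat :=
  Nat.lor (Nat.lor (Nat.shiftLeft 1 (pt a b c d 0)) (Nat.shiftLeft 1 (pt a b c d 1)))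
    (Nat.lor (Nat.shiftLeft 1 (pt a b c d 2)) (Nat.shiftLeft 1 (pt a b c d 3)))

def digit (c i : Nat) : Nat := (c / 4 ^ i) % 4

/-- the first active coordinate -/
def lead (s : Nat) : Nat :=
  bif Nat.beq (s % 2) 1 then 0 else bif Nat.beq ((s / 2) % 2) 1 then 1
  else bif Nat.beq ((s / 4) % 2) 1 then 2 else 3

/-- the type of the coordinate `i` of the line through `c` with the set `s` of active
coordinates -/
def ty (c s i : Nat) : Nat :=
  bif Nat.beq ((s / 2 ^ i) % 2) 0 then digit c i
  else bif Nat.beq (digit c i) (digit c (lead s)) then 4 else 5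

/-- is the coordinate `i` compatible with the first active one -/
def compat (c s i : Nat) : Bool :=
  Nat.beq ((s / 2 ^ i) % 2) 0 || (Nat.beq (digit c i) (digit c (lead s)) ||
    Nat.beq (digit c i) (3 - digit c (lead s)))

def maskS (c s : Nat) : Nat :=
  bif compat c s 0 && (compat c s 1 && (compat c s 2 && compat c s 3)) then
    mask (ty c s 0) (ty c s 1) (ty c s 2) (ty c s 3) else 0

def ttr (c : Nat) : Nat → Nat
  | 0 => 0
  | m + 1 => Nat.lor (Nat.shiftLeft (maskS c (m + 1)) (256 * m)) (ttr c m)

/-- the lines through `c`: the line with the set `s` of active coordinates is in the block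
`s - 1` -/
def TT (c : Nat) : Nat := ttr c 15

end Pool.Agent.TTT
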