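import Pool.Agent.TTT.Sound2
import Pool.Agent.TTT.Table

set_option autoImplicit false

/-!
# The board `[4]^4`
-/

namespace Pool.Agent.TTT

def allB (f : Nat → Bool) : Nat → Bool
  | 0 => true
  | n + 1 => f n && allB f n

theorem allB_spec (f : Nat → Bool) (n : Nat) : allB f n = true → ∀ i, i < n → f i = true := by
  induction n with
  | zero => intro _ i hi; omega
  | succ n ih =>
    rw [allB, Bool.and_eq_true]
    intro h i hi
    by_cases h1 : i = n
    · rw [h1]; exact h.1
    · exact ih h.2 i (by omega)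

theorem ble_of_le {a b : Nat} (h : a ≤ b) : Nat.ble a b = true := by
  rw [Nat.ble_eq]; exact h

/-- the set of the active coordinates -/
def act (a b c d : Nat) : Nat :=
  (bif Nat.ble 4 a then 1 else 0) + (bif Nat.ble 4 b then 2 else 0) +
    (bif Nat.ble 4 c then 4 else 0) + (bif Nat.ble 4 d then 8 else 0)

/-- the line of type `(a, b, c, d)` is in the table of all of its points -/
theorem check1 : allB (fun a => allB (fun b => allB (fun c => allB (fun d =>
    Nat.beq (act a b c d) 0 ||
      allB (fun t => Nat.beq (maskS (pt a b c d t) (act a b c d)) (mask a b c d)) 4)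
      6) 6) 6) 6 = true := by
  decide +kernel

/-- the lines of the same direction are disjoint -/
theorem check2 : allB (fun c => allB (fun s =>
    Nat.beq (maskS c (s + 1)) 0 ||
      (Nat.beq (Nat.land (maskS c (s + 1)) (Nat.shiftLeft 1 c)) (Nat.shiftLeft 1 c) &&
      allB (fun t => Nat.beq (maskS (pt (ty c (s + 1) 0) (ty c (s + 1) 1) (ty c (s + 1) 2)
        (ty c (s + 1) 3) t) (s + 1)) (maskS c (s + 1))) 4)) 15) 256 = true := by
  decide +kernel

/-! ### The points -/

def pv (k : Fin 4 → Nat) (t : Fin 4) : Fin 4 → Fin 4 := fun i =>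
  if h : k i ≤ 3 then ⟨k i, by omega⟩ else if k i = 4 then t else Fin.rev t

def code (x : Fin 4 → Fin 4) : Nat :=
  (x 0).val + 4 * (x 1).val + 16 * (x 2).val + 64 * (x 3).val

theorem pv_val (k : Fin 4 → Nat) (t i : Fin 4) : (pv k t i).val = val (k i) t.val := by
  unfold pv val
  by_cases h : k i ≤ 3
  · rw [dif_pos h]
    have : Nat.ble (k i) 3 = true := ble_of_le h
    rw [this]; rfl
  · rw [dif_neg h]
    have h1 : Nat.ble (k i) 3 = false := by
      rw [Bool.eq_false_iff, Ne, Nat.ble_eq]; exact h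
    rw [h1, cond_false]
    by_cases h2 : k i = 4
    · rw [if_pos h2, beq_of_eq h2, cond_true]
    · rw [if_neg h2]
      have h3 : Nat.beq (k i) 4 = false := by
        rw [Bool.eq_false_iff, Ne, Nat.beq_eq]; exact h2
      rw [h3, cond_false, Fin.val_rev]
      omega

theorem code_pv (k : Fin 4 → Nat) (t : Fin 4) :
    code (pv k t) = pt (k 0) (k 1) (k 2) (k 3) t.val := by
  unfold code pt
  rw [pv_val, pv_val, pv_val, pv_val]

theorem code_inj : Function.Injective code := by
  intro x y h
  unfold code at h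
  funext i
  apply Fin.ext
  have h0 := (x 0).isLt
  have h1 := (x 1).isLt
  have h2 := (x 2).isLt
  have h3 := (x 3).isLt
  have g0 := (y 0).isLt
  have g1 := (y 1).isLt
  have g2 := (y 2).isLt
  have g3 := (y 3).isLt
  fin_cases i
  · show (x 0).val = (y 0).val; omega
  · show (x 1).val = (y 1).val; omega
  · show (x 2).val = (y 2).val; omega
  · show (x 3).val = (y 3).val; omega

theorem code_lt (x : Fin 4 → Fin 4) : code x < 256 := by
  unfold code
  have h0 := (x 0).isLt
  have h1 := (x 1).isLt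
  have h2 := (x 2).isLt
  have h3 := (x 3).isLt
  omega

def ofCode (c : Nat) : Fin 4 → Fin 4 := fun i => ⟨(c / 4 ^ i.val) % 4, Nat.mod_lt _ (by norm_num)⟩

theorem code_ofCode (c : Nat) (h : c < 256) : code (ofCode c) = c := by
  unfold code ofCode
  show c / 4 ^ 0 % 4 + 4 * (c / 4 ^ 1 % 4) + 16 * (c / 4 ^ 2 % 4) + 64 * (c / 4 ^ 3 % 4) = c
  omega

theorem isLine_pv (k : Fin 4 → Nat) (hk : ∃ i, 4 ≤ k i) :
    IsLine 4 4 (Finset.univ.image (pv k)) := by
  refine ⟨pv k, ?_, ?_, rfl⟩
  · intro i
    by_cases h : k i ≤ 3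
    · exact Or.inl ⟨⟨k i, by omega⟩, fun t => by unfold pv; rw [dif_pos h]⟩
    · by_cases h2 : k i = 4
      · exact Or.inr (Or.inl fun t => by unfold pv; rw [dif_neg h, if_pos h2])
      · exact Or.inr (Or.inr fun t => by unfold pv; rw [dif_neg h, if_neg h2])
  · obtain ⟨i, hi⟩ := hk
    refine ⟨i, ?_⟩
    rintro ⟨a, ha⟩
    have h := ha 0
    have h' := ha 1
    rw [← h'] at h
    unfold pv at h
    rw [dif_neg (by omega), dif_neg (by omega)] at h
    by_cases h2 : k i = 4
    · rw [if_pos h2, if_pos h2] at h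
      exact absurd h (by decide)
    · rw [if_neg h2, if_neg h2] at h
      exact absurd h (by decide)

theorem pv_of_isLine (l : Finset (Fin 4 → Fin 4)) (hl : IsLine 4 4 l) :
    ∃ k : Fin 4 → Nat, (∀ i, k i < 6) ∧ (∃ i, 4 ≤ k i) ∧ l = Finset.univ.image (pv k) := by
  obtain ⟨x, hx, ⟨i0, hi0⟩, rfl⟩ := hl
  have h : ∀ i, ∃ a : Nat, a < 6 ∧ (¬ (∃ b, ∀ t, x t i = b) → 4 ≤ a) ∧
      ∀ t, (x t i).val = val a t.val := by
    intro i
    rcases hx i with ⟨a, ha⟩ | h | h
    · refine ⟨a.val, by omega, fun hn => absurd ⟨a, ha⟩ hn, fun t => ?_⟩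
      rw [ha t]
      unfold val
      have : Nat.ble a.val 3 = true := ble_of_le (by omega)
      rw [this]; rfl
    · refine ⟨4, by omega, fun _ => le_refl _, fun t => ?_⟩
      rw [h t]; rfl
    · refine ⟨5, by omega, fun _ => by omega, fun t => ?_⟩
      rw [h t, Fin.val_rev]
      show 4 - (t.val + 1) = 3 - t.val
      omega
  choose k hk1 hk2 hk3 using h
  refine ⟨k, hk1, ⟨i0, hk2 i0 hi0⟩, ?_⟩
  have : x = pv k := by
    funext t i
    apply Fin.ext
    rw [hk3, pv_val]
  rw [this]

theorem card_pv (k : Fin 4 → Nat) (hk : ∃ i, 4 ≤ k i) :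
    (Finset.univ.image (pv k)).card = 4 := by
  rw [Finset.card_image_of_injective]
  · simp
  · intro t t' h
    obtain ⟨i, hi⟩ := hk
    have h1 := congrFun h i
    unfold pv at h1
    rw [dif_neg (by omega), dif_neg (by omega)] at h1
    by_cases h2 : k i = 4
    · rwa [if_pos h2, if_pos h2] at h1
    · rw [if_neg h2, if_neg h2] at h1
      exact Fin.rev_injective h1

theorem mask_bit (a b c d i : Nat) : (mask a b c d).testBit i = true ↔
    ∃ t : Fin 4, pt a b c d t.val = i := by
  unfold mask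
  simp only [lor_eq, Nat.testBit_or, shift_bit, Bool.or_eq_true, decide_eq_true_eq]
  constructor
  · rintro ((h | h) | (h | h))
    · exact ⟨0, h⟩
    · exact ⟨1, h⟩
    · exact ⟨2, h⟩
    · exact ⟨3, h⟩
  · rintro ⟨t, ht⟩
    fin_cases t
    · exact Or.inl (Or.inl ht)
    · exact Or.inl (Or.inr ht)
    · exact Or.inr (Or.inl ht)
    · exact Or.inr (Or.inr ht)

theorem mask_pv (k : Fin 4 → Nat) (i : Nat) :
    (mask (k 0) (k 1) (k 2) (k 3)).testBit i = true ↔
      ∃ w ∈ Finset.univ.image (pv k), code w = i := by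
  rw [mask_bit]
  constructor
  · rintro ⟨t, ht⟩
    exact ⟨pv k t, Finset.mem_image_of_mem _ (Finset.mem_univ _), by rw [code_pv]; exact ht⟩
  · rintro ⟨w, hw, rfl⟩
    rw [Finset.mem_image] at hw
    obtain ⟨t, _, rfl⟩ := hw
    exact ⟨t, (code_pv k t).symm⟩

theorem ty_lead (c s : Nat) (h1 : 1 ≤ s) (h2 : s ≤ 15) :
    ∃ i : Fin 4, 4 ≤ ty c s i.val := by
  have key : ∀ i : Nat, (s / 2 ^ i) % 2 = 1 → 4 ≤ ty c s i := by
    intro i hi
    unfold ty
    rw [hi]
    show 4 ≤ bif Nat.beq (digit c i) (digit c (lead s)) then 4 else 5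
    cases Nat.beq (digit c i) (digit c (lead s)) <;> simp
  by_cases c0 : s % 2 = 1
  · exact ⟨0, key 0 (by simpa using c0)⟩
  · by_cases c1 : (s / 2) % 2 = 1
    · exact ⟨1, key 1 (by simpa using c1)⟩
    · by_cases c2 : (s / 4) % 2 = 1
      · exact ⟨2, key 2 (by simpa using c2)⟩
      · exact ⟨3, key 3 (by show s / 8 % 2 = 1; omega)⟩

/-! ### The table -/

theorem maskS_cases (c s : Nat) : maskS c s = 0 ∨
    maskS c s = mask (ty c s 0) (ty c s 1) (ty c s 2) (ty c s 3) := by
  unfold maskS
  cases compat c s 0 && (compat c s 1 && (compat c s 2 && compat c s 3))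
  · exact Or.inl rfl
  · exact Or.inr rfl

theorem maskS_pv (c s : Nat) (h : maskS c s ≠ 0) (i : Nat) :
    (maskS c s).testBit i = true ↔
      ∃ w ∈ Finset.univ.image (pv fun i => ty c s i.val), code w = i := by
  rcases maskS_cases c s with h1 | h1
  · exact absurd h1 h
  · rw [h1]
    exact mask_pv (fun i => ty c s i.val) i

theorem maskS_lt (c s i : Nat) (h : (maskS c s).testBit i = true) : i < 256 := by
  have h0 : maskS c s ≠ 0 := by
    intro h1; rw [h1] at h; simp at h
  obtain ⟨w, _, rfl⟩ := (maskS_pv c s h0 i).1 h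
  exact code_lt w

theorem ttr_bit (c : Nat) : ∀ n m j, j < 256 → (ttr c n).testBit (256 * m + j) =
    (decide (m < n) && (maskS c (m + 1)).testBit j) := by
  intro n
  induction n with
  | zero => intro m j _; simp [ttr]
  | succ n ih =>
    intro m j hj
    rw [ttr, lor_eq, Nat.testBit_or, ih m j hj]
    show (((maskS c (n + 1)) <<< (256 * n)).testBit (256 * m + j) ||
      (decide (m < n) && (maskS c (m + 1)).testBit j)) = _
    rw [Nat.testBit_shiftLeft]
    rcases lt_trichotomy m n with h | h | h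
    · have h1 : ¬ (256 * m + j ≥ 256 * n) := by omega
      have h2 : m < n + 1 := by omega
      simp [h1, h, h2]
    · subst h
      have h1 : 256 * m + j ≥ 256 * m := by omega
      have h2 : 256 * m + j - 256 * m = j := by omega
      rw [h2]
      simp
    · have h1 : ¬ m < n := by omega
      have h2 : ¬ m < n + 1 := by omega
      have h3 : (maskS c (n + 1)).testBit (256 * m + j - 256 * n) = false := by
        rw [Bool.eq_false_iff]
        intro h4
        have := maskS_lt _ _ _ h4
        omega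
      rw [h3]
      simp [h1, h2]

theorem TT_bit (c m j : Nat) (hj : j < 256) : (TT c).testBit (256 * m + j) =
    (decide (m < 15) && (maskS c (m + 1)).testBit j) := ttr_bit c 15 m j hj

theorem block_bit (c m i : Nat) :
    (Nat.land (Nat.shiftRight (TT c) (Nat.mul 256 m)) (full 256)).testBit i =
      (decide (m < 15) && (maskS c (m + 1)).testBit i) := by
  rw [land_eq, Nat.testBit_and, full_bit]
  show (((TT c) >>> (256 * m)).testBit i && decide (i < 256)) = _
  rw [Nat.testBit_shiftRight]
  by_cases hi : i < 256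
  · rw [TT_bit c m i hi]; simp [hi]
  · have : (maskS c (m + 1)).testBit i = false := by
      rw [Bool.eq_false_iff]
      intro h
      exact hi (maskS_lt _ _ _ h)
    rw [this]
    simp [hi]

theorem act_pos (k : Fin 4 → Nat) (hk : ∃ i, 4 ≤ k i) : 1 ≤ act (k 0) (k 1) (k 2) (k 3) := by
  have key : ∀ a : Nat, 4 ≤ a → Nat.ble 4 a = true := fun a h => ble_of_le h
  obtain ⟨i, hi⟩ := hk
  unfold act
  fin_cases i
  · rw [key (k 0) hi, cond_true]; omega
  · rw [key (k 1) hi, cond_true]; omega
  · rw [key (k 2) hi, cond_true]; omega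
  · rw [key (k 3) hi, cond_true]; omega

theorem act_le (a b c d : Nat) : act a b c d ≤ 15 := by
  unfold act
  cases Nat.ble 4 a <;> cases Nat.ble 4 b <;> cases Nat.ble 4 c <;> cases Nat.ble 4 d <;> decide

open Classical in
/-- the direction of a line -/
noncomputable def dirOf (l : Finset (Fin 4 → Fin 4)) : Nat :=
  if h : IsLine 4 4 l then
    act (Classical.choose (pv_of_isLine l h) 0) (Classical.choose (pv_of_isLine l h) 1)
      (Classical.choose (pv_of_isLine l h) 2) (Classical.choose (pv_of_isLine l h) 3) - 1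
  else 0

theorem dirOf_spec (l : Finset (Fin 4 → Fin 4)) (hl : IsLine 4 4 l) :
    ∃ k : Fin 4 → Nat, (∀ i, k i < 6) ∧ (∃ i, 4 ≤ k i) ∧ l = Finset.univ.image (pv k) ∧
      dirOf l = act (k 0) (k 1) (k 2) (k 3) - 1 := by
  refine ⟨Classical.choose (pv_of_isLine l hl), (Classical.choose_spec (pv_of_isLine l hl)).1,
    (Classical.choose_spec (pv_of_isLine l hl)).2.1,
    (Classical.choose_spec (pv_of_isLine l hl)).2.2, ?_⟩
  unfold dirOf
  rw [dif_pos hl]

theorem check1_spec (k : Fin 4 → Nat) (hk : ∀ i, k i < 6) (hk' : ∃ i, 4 ≤ k i) (t : Fin 4) :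
    maskS (code (pv k t)) (act (k 0) (k 1) (k 2) (k 3)) = mask (k 0) (k 1) (k 2) (k 3) := by
  have h1 := allB_spec _ _ (allB_spec _ _ (allB_spec _ _ (allB_spec _ _ check1 (k 0) (hk 0))
    (k 1) (hk 1)) (k 2) (hk 2)) (k 3) (hk 3)
  rw [Bool.or_eq_true, Nat.beq_eq] at h1
  rcases h1 with h1 | h1
  · have := act_pos k hk'
    omega
  · have h2 := allB_spec _ _ h1 t.val t.isLt
    rw [Nat.beq_eq] at h2
    rw [code_pv]
    exact h2

theorem check2_spec (c s : Nat) (hc : c < 256) (h1 : 1 ≤ s) (h2 : s ≤ 15) (h : maskS c s ≠ 0) :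
    (maskS c s).testBit c = true ∧ ∀ j, (maskS c s).testBit j = true → maskS j s = maskS c s := by
  have h3 := allB_spec _ _ (allB_spec _ _ check2 c hc) (s - 1) (by omega)
  have h4 : s - 1 + 1 = s := by omega
  rw [h4, Bool.or_eq_true, Nat.beq_eq, Bool.and_eq_true] at h3
  rcases h3 with h3 | ⟨h3, h5⟩
  · exact absurd h3 h
  · refine ⟨?_, ?_⟩
    · rw [Nat.beq_eq, land_eq] at h3
      have h6 := congrArg (fun t => Nat.testBit t c) h3
      simpa only [Nat.testBit_and, shift_bit, decide_true, Bool.and_true] using h6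
    · intro j hj
      obtain ⟨w, hw, rfl⟩ := (maskS_pv c s h j).1 hj
      rw [Finset.mem_image] at hw
      obtain ⟨t, _, rfl⟩ := hw
      have h6 := allB_spec _ _ h5 t.val t.isLt
      rw [Nat.beq_eq] at h6
      rw [code_pv]
      exact h6

/-- the model -/
noncomputable def model : Model (IsLine 4 4) TT 256 4 where
  code := code
  inj := code_inj
  surj i hi := ⟨ofCode i, code_ofCode i hi⟩
  lt := code_lt
  card l hl := by
    obtain ⟨k, _, hk, rfl⟩ := pv_of_isLine l hl
    exact card_pv k hk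
  blk c hc m h := by
    have hm : m < 15 := by
      by_contra hm
      apply h
      apply Nat.eq_of_testBit_eq
      intro i
      rw [block_bit, Nat.zero_testBit]
      simp [hm]
    have h0 : maskS c (m + 1) ≠ 0 := by
      intro h0
      apply h
      apply Nat.eq_of_testBit_eq
      intro i
      rw [block_bit, Nat.zero_testBit, h0]
      simp
    refine ⟨Finset.univ.image (pv fun i => ty c (m + 1) i.val),
      isLine_pv _ (ty_lead c (m + 1) (by omega) (by omega)), fun i => ?_⟩
    rw [block_bit, decide_eq_true hm, Bool.true_and]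
    exact maskS_pv c (m + 1) h0 i
  dir := dirOf
  dir_lt l hl := by
    obtain ⟨k, _, _, _, h⟩ := dirOf_spec l hl
    have := act_le (k 0) (k 1) (k 2) (k 3)
    rw [h]
    show act (k 0) (k 1) (k 2) (k 3) - 1 < 16
    omega
  tt l hl x hx w := by
    obtain ⟨k, hk1, hk2, hk3, hd⟩ := dirOf_spec l hl
    have ha1 := act_pos k hk2
    have ha2 := act_le (k 0) (k 1) (k 2) (k 3)
    have hd1 : dirOf l + 1 = act (k 0) (k 1) (k 2) (k 3) := by omega
    have hd2 : dirOf l < 15 := by omega
    rw [TT_bit _ _ _ (code_lt x), decide_eq_true hd2, Bool.true_and, hd1]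
    have hlm : ∀ y, y ∈ l ↔ (mask (k 0) (k 1) (k 2) (k 3)).testBit (code y) = true := by
      intro y
      rw [mask_pv, hk3]
      constructor
      · intro h; exact ⟨y, h, rfl⟩
      · rintro ⟨z, hz, hzy⟩; rwa [← code_inj hzy]
    have hxm : ∀ y ∈ l, maskS (code y) (act (k 0) (k 1) (k 2) (k 3)) =
        mask (k 0) (k 1) (k 2) (k 3) := by
      intro y hy
      rw [hk3, Finset.mem_image] at hy
      obtain ⟨t, _, rfl⟩ := hy
      exact check1_spec k hk1 hk2 t
    constructor
    · intro h
      have h0 : maskS (code w) (act (k 0) (k 1) (k 2) (k 3)) ≠ 0 := by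
        intro h0
        rw [h0] at h
        simp at h
      obtain ⟨c1, c2⟩ := check2_spec (code w) _ (code_lt w) ha1 ha2 h0
      have h2 := c2 (code x) h
      rw [hxm x hx] at h2
      rw [hlm, h2]
      exact c1
    · intro h
      rw [hxm w h]
      exact (hlm x).1 hx

end Pool.Agent.TTT
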