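import Mathlib

set_option autoImplicit false

/-!
# The checker

Sets of cells are coded by the bits of natural numbers `X`, `O`.  Every line belongs to a block
(its direction) and lines of the same block are disjoint; a set of lines is coded by a number whose
`m`-th block of `nb` bits is the union of its lines in the block `m`.
-/

namespace Pool.Agent.TTT

/-- a cell: its code, its bit, and the set of the lines through it (`TT` is the table of these) -/
structure Cell (TT : Nat → Nat) (nb : Nat) where
  c : Nat
  b : Nat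
  L : Nat
  hc : c < nb
  hb : b = Nat.shiftLeft 1 c
  hL : L = TT c

section
variable (TT : Nat → Nat) (nb kk : Nat)

/-- threat sequences: `w v m`: the cell `v` completes the line in block `m`; `d v e e' m m'`: the
cell `v` gives a threat at `e` in the block `m` and a threat at `e'` in the block `m'`;
`s v e m r`: the cell `v` gives a threat at `e` in the block `m`, go on with `r` -/
inductive S
  | w (v : Cell TT nb) (m : Nat)
  | d (v e e' : Cell TT nb) (m m' : Nat)
  | s (v e : Cell TT nb) (m : Nat) (r : S)

/-- certificates: a threat sequence; a single threat; a quiet move with threat sequences in case of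
a pass and the list of the positions after the dangerous replies -/
inductive T
  | l (s : S TT nb)
  | f (v e : Cell TT nb) (m : Nat) (t : T)
  | q (v : Cell TT nb) (ss : List (S TT nb)) (ch : T)
  | c (w : Cell TT nb) (t r : T)
  | n

/-- all cells -/
def full : Nat := Nat.pred (Nat.shiftLeft 1 nb)

/-- union of the blocks -/
def fold : Nat → Nat → Nat
  | 0, Z => Z
  | k + 1, Z => fold k (Nat.lor Z (Nat.shiftRight Z (Nat.mul nb (Nat.shiftLeft 1 k))))

variable {TT nb}

/-- the block `m` of the lines through `v` is a line contained in the set `Y` -/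
def lin (full : Nat) (v : Cell TT nb) (m Y : Nat) : Bool :=
  !(Nat.beq (Nat.land (Nat.shiftRight v.L (Nat.mul nb m)) full) 0) &&
  Nat.beq (Nat.land (Nat.land (Nat.shiftRight v.L (Nat.mul nb m)) full) Y)
    (Nat.land (Nat.shiftRight v.L (Nat.mul nb m)) full)

/-- `v` is free and meets all threats -/
def okv (v : Cell TT nb) (X O XL o3 : Nat) : Bool :=
  Nat.beq (Nat.land (Nat.lor X O) v.b) 0 &&
  Nat.beq (Nat.land o3 (Nat.lor XL v.L)) o3

/-- `e` is free and different from `v` -/
def oke (v e : Cell TT nb) (X O : Nat) : Bool :=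
  Nat.beq (Nat.land (Nat.lor (Nat.lor X O) v.b) e.b) 0

variable (nb)

/-- check of a threat sequence; the result is `0` or a set of cells such that the sequence also
works after an additional move of the second player outside the set -/
def tss (full : Nat) : S TT nb → Nat → Nat → Nat → Nat → Nat → Nat → Nat → Nat → Nat
  | .w v m, X, O, _, _, _, _, Z, C =>
    bif Nat.beq (Nat.land (Nat.lor X O) v.b) 0 && lin full v m (Nat.lor X v.b) then
      Nat.lor (Nat.lor C v.b) (fold nb kk Z)
    else 0
  | .d v e e' m m', X, O, XL, _, _, o3, Z, C =>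
    bif okv v X O XL o3 && (oke v e X O && (oke v e' X O && (Nat.beq (Nat.land e.b e'.b) 0 &&
      (lin full v m (Nat.lor X (Nat.lor v.b e.b)) &&
        lin full v m' (Nat.lor X (Nat.lor v.b e'.b)))))) then
      Nat.lor (Nat.lor (Nat.lor C v.b) (Nat.lor e.b e'.b)) (fold nb kk Z)
    else 0
  | .s v e m r, X, O, XL, o1, o2, o3, Z, C =>
    bif okv v X O XL o3 && (oke v e X O && lin full v m (Nat.lor X (Nat.lor v.b e.b))) then
      tss full r (Nat.lor X v.b) (Nat.lor O e.b) (Nat.lor XL v.L) (Nat.lor o1 e.L)
        (Nat.lor o2 (Nat.land o1 e.L)) (Nat.lor o3 (Nat.land o2 e.L))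
        (Nat.lor Z (Nat.xor (Nat.lor o2 (Nat.land o1 e.L))
          (Nat.land (Nat.lor o2 (Nat.land o1 e.L)) (Nat.lor XL v.L))))
        (Nat.lor C (Nat.lor v.b e.b))
    else 0

/-- intersection of the zones of the threat sequences of the list -/
def inter (full X O XL o1 o2 o3 Z : Nat) : List (S TT nb) → Nat
  | [] => full
  | s :: ss =>
    bif Nat.beq (tss nb kk full s X O XL o1 o2 o3 Z 0) 0 then inter full X O XL o1 o2 o3 Z ss
    else Nat.land (tss nb kk full s X O XL o1 o2 o3 Z 0) (inter full X O XL o1 o2 o3 Z ss)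

/-- the main check; `p = true`: position, `p = false`: list of positions after the replies in
`U` -/
def chk (full : Nat) : T TT nb → Bool → Nat → Nat → Nat → Nat → Nat → Nat → Nat → Bool
  | .l s, p, X, O, XL, o1, o2, o3, _ =>
    p && !(Nat.beq (tss nb kk full s X O XL o1 o2 o3 0 0) 0)
  | .f v e m t, p, X, O, XL, o1, o2, o3, _ =>
    p && (okv v X O XL o3 && (oke v e X O && (lin full v m (Nat.lor X (Nat.lor v.b e.b)) &&
      chk full t true (Nat.lor X v.b) (Nat.lor O e.b) (Nat.lor XL v.L) (Nat.lor o1 e.L)
        (Nat.lor o2 (Nat.land o1 e.L)) (Nat.lor o3 (Nat.land o2 e.L)) 0)))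
  | .q v ss ch, p, X, O, XL, o1, o2, o3, _ =>
    let X' := Nat.lor X v.b
    let XL' := Nat.lor XL v.L
    let U := inter nb kk full X' O XL' o1 o2 o3 (Nat.xor o2 (Nat.land o2 XL')) ss
    let U' := Nat.xor U (Nat.land U (Nat.lor X' O))
    p && (okv v X O XL o3 && ((!(Nat.beq U' 0) || !(Nat.beq U full)) &&
      chk full ch false X' O XL' o1 o2 o3 U'))
  | .c w t r, p, X, O, XL, o1, o2, o3, U =>
    !p && (chk full t true X (Nat.lor O w.b) XL (Nat.lor o1 w.L)
        (Nat.lor o2 (Nat.land o1 w.L)) (Nat.lor o3 (Nat.land o2 w.L)) 0 &&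
      chk full r false X O XL o1 o2 o3 (Nat.xor U (Nat.land U w.b)))
  | .n, p, _, _, _, _, _, _, U => !p && Nat.beq U 0

end

end Pool.Agent.TTT
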