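import Pool.Agent.TTT.Sym

set_option autoImplicit false

/-!
# Assembly
-/

namespace Pool.Agent.TTT

def bit (M k : Nat) : Bool := Nat.beq (Nat.land (Nat.shiftRight M k) 1) 1

theorem bit_spec (M k : Nat) : bit M k = true → M.testBit k = true := by
  unfold bit
  rw [Nat.beq_eq]
  intro h
  have h1 := congrArg (fun t => Nat.testBit t 0) h
  change ((M >>> k) &&& 1).testBit 0 = (1 : Nat).testBit 0 at h1
  rw [Nat.testBit_and, Nat.testBit_shiftRight] at h1
  simpa using h1

def allEq (a b c d x : Nat) : Bool :=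
  Nat.beq a x && (Nat.beq b x && (Nat.beq c x && Nat.beq d x))

def covered (M a b c d : Nat) : Bool :=
  !(Nat.ble a b && (Nat.ble b c && Nat.ble c d)) ||
  (allEq (a / 4) (b / 4) (c / 4) (d / 4) 0 || (allEq (a / 4) (b / 4) (c / 4) (d / 4) 1 ||
  (allEq (a % 4) (b % 4) (c % 4) (d % 4) 0 || (allEq (a % 4) (b % 4) (c % 4) (d % 4) 1 ||
  ((Nat.beq (a / 4) (a % 4) && (Nat.beq (b / 4) (b % 4) && (Nat.beq (c / 4) (c % 4) &&
    Nat.beq (d / 4) (d % 4)))) ||
  (bit M (sidx a b c d) || (bit M (sidx (sw a) (sw b) (sw c) (sw d)) ||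
  (bit M (sidx (ex a) (ex b) (ex c) (ex d)) ||
    bit M (sidx (ex (sw a)) (ex (sw b)) (ex (sw c)) (ex (sw d)))))))))))

def coverAll (M : Nat) : Bool :=
  allB (fun a => allB (fun b => allB (fun c => allB (fun d => covered M a b c d) 16) 16) 16) 16

theorem sw_lt : ∀ v, v < 16 → sw v < 16 := by decide
theorem ex_lt : ∀ v, v < 16 → ex v < 16 := by decide
theorem sw_sw : ∀ v, v < 16 → sw (sw v) = v := by decide
theorem ex_ex : ∀ v, v < 16 → ex (ex v) = v := by decide

theorem P_sw {a b c d : Nat} (ha : a < 16) (hb : b < 16) (hc : c < 16) (hd : d < 16)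
    (h : P (sw a) (sw b) (sw c) (sw d)) : P a b c d := by
  have h1 := good_sw _ (by
    intro i
    fin_cases i
    · exact sw_lt a ha
    · exact sw_lt b hb
    · exact sw_lt c hc
    · exact sw_lt d hd) h
  have e : (fun i => sw ((![sw a, sw b, sw c, sw d] : Fin 4 → Nat) i)) = ![a, b, c, d] := by
    funext i
    fin_cases i
    · exact sw_sw a ha
    · exact sw_sw b hb
    · exact sw_sw c hc
    · exact sw_sw d hd
  rw [e] at h1
  exact h1

theorem P_ex {a b c d : Nat} (ha : a < 16) (hb : b < 16) (hc : c < 16) (hd : d < 16)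
    (h : P (ex a) (ex b) (ex c) (ex d)) : P a b c d := by
  have h1 := good_ex _ (by
    intro i
    fin_cases i
    · exact ex_lt a ha
    · exact ex_lt b hb
    · exact ex_lt c hc
    · exact ex_lt d hd) h
  have e : (fun i => ex ((![ex a, ex b, ex c, ex d] : Fin 4 → Nat) i)) = ![a, b, c, d] := by
    funext i
    fin_cases i
    · exact ex_ex a ha
    · exact ex_ex b hb
    · exact ex_ex c hc
    · exact ex_ex d hd
  rw [e] at h1
  exact h1

theorem pA_perm (σ : Equiv.Perm (Fin 4)) (τ : Fin 4 → Nat) :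
    pA (fun i => τ (σ i)) = fun i => pA τ (σ i) := rfl

/-- the pairs of replies -/
theorem good_all (M : Nat) (hM : ∀ k, M.testBit k = true → PI k) (hc : coverAll M = true)
    (r1 r2 : Fin 4 → Fin 4) (h1 : r1 ≠ m1) (h1' : r1 ≠ m2) (h2 : r2 ≠ m1) (h2' : r2 ≠ m2)
    (h12 : r1 ≠ r2) : FirstWins (IsLine 4 4) {m1, m2} {r1, r2} := by
  set τ : Fin 4 → Nat := fun i => 4 * (r1 i).val + (r2 i).val with hτ
  have hlt : ∀ i, τ i < 16 := by
    intro i
    have a1 := (r1 i).isLt
    have a2 := (r2 i).isLt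
    show 4 * (r1 i).val + (r2 i).val < 16
    omega
  have hA : ∀ i, τ i / 4 = (r1 i).val := by
    intro i
    have a1 := (r1 i).isLt
    have a2 := (r2 i).isLt
    show (4 * (r1 i).val + (r2 i).val) / 4 = (r1 i).val
    omega
  have hB : ∀ i, τ i % 4 = (r2 i).val := by
    intro i
    have a1 := (r1 i).isLt
    have a2 := (r2 i).isLt
    show (4 * (r1 i).val + (r2 i).val) % 4 = (r2 i).val
    omega
  have hgood : Good τ → FirstWins (IsLine 4 4) {m1, m2} {r1, r2} := by
    intro h
    have e1 : pA τ = r1 := by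
      funext i
      apply Fin.ext
      show τ i / 4 % 4 = (r1 i).val
      rw [hA]
      have a1 := (r1 i).isLt
      omega
    have e2 : pB τ = r2 := by
      funext i
      apply Fin.ext
      exact hB i
    unfold Good at h
    rwa [e1, e2] at h
  apply hgood
  set σ := Tuple.sort τ with hσ
  have hmono : Monotone (τ ∘ σ) := Tuple.monotone_sort τ
  have key : Good (fun i => τ (σ i)) → Good τ := by
    intro h
    have h3 := good_perm σ.symm _ h
    simpa using h3
  apply key
  have e : (fun i => τ (σ i)) = ![τ (σ 0), τ (σ 1), τ (σ 2), τ (σ 3)] := by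
    funext i
    fin_cases i <;> rfl
  rw [e]
  show P _ _ _ _
  have hcov : covered M (τ (σ 0)) (τ (σ 1)) (τ (σ 2)) (τ (σ 3)) = true :=
    allB_spec _ _ (allB_spec _ _ (allB_spec _ _ (allB_spec _ _ hc _ (hlt _)) _ (hlt _)) _
      (hlt _)) _ (hlt _)
  have hs : (Nat.ble (τ (σ 0)) (τ (σ 1)) && (Nat.ble (τ (σ 1)) (τ (σ 2)) &&
      Nat.ble (τ (σ 2)) (τ (σ 3)))) = true := by
    simp only [Bool.and_eq_true, Nat.ble_eq]
    exact ⟨hmono (by decide), hmono (by decide), hmono (by decide)⟩
  -- excluded cases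
  have ex1 : ∀ (r : Fin 4 → Fin 4) (x : Fin 4), r ≠ (fun _ => x) →
      ¬ ((r (σ 0)).val = x.val ∧ (r (σ 1)).val = x.val ∧ (r (σ 2)).val = x.val ∧
        (r (σ 3)).val = x.val) := by
    rintro r x hr ⟨b0, b1, b2, b3⟩
    apply hr
    funext j
    apply Fin.ext
    obtain ⟨i, rfl⟩ := σ.surjective j
    fin_cases i
    · exact b0
    · exact b1
    · exact b2
    · exact b3
  unfold covered at hcov
  rw [hs] at hcov
  simp only [Bool.not_true, Bool.false_or, Bool.or_eq_true] at hcov
  rcases hcov with h | h | h | h | h | h | h | h | h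
  · exfalso
    unfold allEq at h
    simp only [Bool.and_eq_true, Nat.beq_eq, hA] at h
    exact ex1 r1 0 h1 h
  · exfalso
    unfold allEq at h
    simp only [Bool.and_eq_true, Nat.beq_eq, hA] at h
    exact ex1 r1 1 h1' h
  · exfalso
    unfold allEq at h
    simp only [Bool.and_eq_true, Nat.beq_eq, hB] at h
    exact ex1 r2 0 h2 h
  · exfalso
    unfold allEq at h
    simp only [Bool.and_eq_true, Nat.beq_eq, hB] at h
    exact ex1 r2 1 h2' h
  · exfalso
    simp only [Bool.and_eq_true, Nat.beq_eq, hA, hB] at h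
    apply h12
    obtain ⟨b0, b1, b2, b3⟩ := h
    funext j
    apply Fin.ext
    obtain ⟨i, rfl⟩ := σ.surjective j
    fin_cases i
    · exact b0
    · exact b1
    · exact b2
    · exact b3
  · exact (inv_sidx _ _ _ _ (hlt _) (hlt _) (hlt _) (hlt _)).1 (hM _ (bit_spec _ _ h))
  · exact P_sw (hlt _) (hlt _) (hlt _) (hlt _)
      ((inv_sidx _ _ _ _ (sw_lt _ (hlt _)) (sw_lt _ (hlt _)) (sw_lt _ (hlt _))
        (sw_lt _ (hlt _))).1 (hM _ (bit_spec _ _ h)))
  · exact P_ex (hlt _) (hlt _) (hlt _) (hlt _)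
      ((inv_sidx _ _ _ _ (ex_lt _ (hlt _)) (ex_lt _ (hlt _)) (ex_lt _ (hlt _))
        (ex_lt _ (hlt _))).1 (hM _ (bit_spec _ _ h)))
  · exact P_sw (hlt _) (hlt _) (hlt _) (hlt _)
      (P_ex (sw_lt _ (hlt _)) (sw_lt _ (hlt _)) (sw_lt _ (hlt _)) (sw_lt _ (hlt _))
        ((inv_sidx _ _ _ _ (ex_lt _ (sw_lt _ (hlt _))) (ex_lt _ (sw_lt _ (hlt _)))
          (ex_lt _ (sw_lt _ (hlt _))) (ex_lt _ (sw_lt _ (hlt _)))).1 (hM _ (bit_spec _ _ h))))

theorem not_small {B : Finset (Fin 4 → Fin 4)} (h : B.card < 4) :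
    ¬ ∃ l, IsLine 4 4 l ∧ l ⊆ B := by
  rintro ⟨l, hl, hsub⟩
  have h1 := Finset.card_le_card hsub
  rw [model.card l hl] at h1
  omega

theorem exists_fresh (A : Finset (Fin 4 → Fin 4)) (h : A.card < 256) :
    ∃ w, w ∉ A := by
  by_contra hc
  push Not at hc
  have h1 : A = Finset.univ := Finset.eq_univ_iff_forall.2 hc
  rw [h1, Finset.card_univ] at h
  simp at h

/-- the position after the first move and a reply -/
theorem after_one (M : Nat) (hM : ∀ k, M.testBit k = true → PI k) (hc : coverAll M = true)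
    (r1 : Fin 4 → Fin 4) (h1 : r1 ≠ m1) (h1' : r1 ≠ m2) :
    FirstWins (IsLine 4 4) {m1} {r1} := by
  have hm : m2 ≠ m1 := by
    intro h
    have := congrFun h 0
    exact absurd this (by decide)
  refine FirstWins.move _ _ m2 ?_ ?_ ?_ ?_ ?_
  · rw [Finset.mem_singleton]; exact hm
  · rw [Finset.mem_singleton]; exact fun h => h1' h.symm
  · obtain ⟨w, hw⟩ := exists_fresh {m2, m1, r1}
      (lt_of_le_of_lt Finset.card_le_three (by norm_num))
    simp only [Finset.mem_insert, Finset.mem_singleton, not_or] at hw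
    exact ⟨w, by simp [hw.1, hw.2.1], by simp [hw.2.2]⟩
  · intro w _ _
    exact not_small (lt_of_le_of_lt Finset.card_le_two (by norm_num))
  · intro w hw1 hw2
    simp only [Finset.mem_insert, Finset.mem_singleton, not_or] at hw1 hw2
    have h := good_all M hM hc r1 w h1 h1' hw1.2 hw1.1 (fun h => hw2 h.symm)
    rw [Finset.pair_comm m2 m1, Finset.pair_comm w r1]
    exact h

theorem final (M : Nat) (hM : ∀ k, M.testBit k = true → PI k) (hc : coverAll M = true) :
    FirstWins (IsLine 4 4) ∅ ∅ := by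
  refine FirstWins.move _ _ m1 (by simp) (by simp) ?_ ?_ ?_
  · obtain ⟨w, hw⟩ := exists_fresh {m1} (by simp)
    exact ⟨w, by simpa using hw, by simp⟩
  · intro w _ _
    refine not_small ?_
    rw [Finset.card_insert_of_notMem (by simp)]
    simp
  · intro w hw1 _
    rw [insert_empty_eq, Finset.mem_singleton] at hw1
    rw [insert_empty_eq, insert_empty_eq]
    by_cases h : w = m2
    · have h1 : FirstWins (IsLine 4 4) {m1} {(fun _ => 2 : Fin 4 → Fin 4)} := by
        apply after_one M hM hc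
        · intro h
          exact absurd (congrFun h 0) (by decide)
        · intro h
          exact absurd (congrFun h 0) (by decide)
      have h2 := fw_valE s12 s12_rev h1
      rw [Finset.map_singleton, Finset.map_singleton] at h2
      have e1 : (valE s12).toEmbedding m1 = m1 := by
        funext i; show s12 0 = 0; decide
      have e2 : (valE s12).toEmbedding (fun _ => 2 : Fin 4 → Fin 4) = m2 := by
        funext i; show s12 2 = 1; decide
      rw [e1, e2] at h2
      rw [h]
      exact h2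
    · exact after_one M hM hc w hw1 h

end Pool.Agent.TTT
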