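import Pool.Agent.TTT.Sym2

set_option autoImplicit false

/-!
# Assembly, second version: special second moves after the replies in `{0, 3}^4` and `{1, 2}^4`
-/

namespace Pool.Agent.TTT

/-- the digit is `0` or `3` -/
def isA (v : Nat) : Bool := Nat.beq v 0 || Nat.beq v 3

/-- all digits in `{0, 3}` or no digit in `{0, 3}` -/
def richB (a b c d : Nat) : Bool :=
  (isA a && (isA b && (isA c && isA d))) || (!isA a && (!isA b && (!isA c && !isA d)))

def covered2 (M a b c d : Nat) : Bool :=
  richB (a / 4) (b / 4) (c / 4) (d / 4) || covered M a b c d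

def coverAll2 (M : Nat) : Bool :=
  allB (fun a => allB (fun b => allB (fun c => allB (fun d => covered2 M a b c d) 16) 16) 16) 16

/-- the points in `{0, 3}^4` or `{1, 2}^4` -/
def Rich (r : Fin 4 → Fin 4) : Prop :=
  richB (r 0).val (r 1).val (r 2).val (r 3).val = true

theorem rich_perm (σ : Equiv.Perm (Fin 4)) (r : Fin 4 → Fin 4)
    (h : richB (r (σ 0)).val (r (σ 1)).val (r (σ 2)).val (r (σ 3)).val = true) : Rich r := by
  have key : ∀ r : Fin 4 → Fin 4, richB (r 0).val (r 1).val (r 2).val (r 3).val = true ↔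
      ((∀ i, isA (r i).val = true) ∨ (∀ i, isA (r i).val = false)) := by
    intro r
    unfold richB
    simp only [Bool.or_eq_true, Bool.and_eq_true, Bool.not_eq_true']
    constructor
    · rintro (⟨h0, h1, h2, h3⟩ | ⟨h0, h1, h2, h3⟩)
      · left; intro i; fin_cases i <;> assumption
      · right; intro i; fin_cases i <;> assumption
    · rintro (h | h)
      · exact Or.inl ⟨h 0, h 1, h 2, h 3⟩
      · exact Or.inr ⟨h 0, h 1, h 2, h 3⟩
  unfold Rich
  rw [key]
  have h1 := (key (fun i => r (σ i))).1 h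
  rcases h1 with h1 | h1
  · left
    intro i
    have := h1 (σ.symm i)
    simpa using this
  · right
    intro i
    have := h1 (σ.symm i)
    simpa using this

/-- the pairs of replies -/
theorem good_all2 (M : Nat) (hM : ∀ k, M.testBit k = true → PI k) (hc : coverAll2 M = true)
    (r1 r2 : Fin 4 → Fin 4) (h1 : r1 ≠ m1) (h1' : r1 ≠ m2) (h2 : r2 ≠ m1) (h2' : r2 ≠ m2)
    (h12 : r1 ≠ r2) (hnr : ¬ Rich r1) : FirstWins (IsLine 4 4) {m1, m2} {r1, r2} := by
  set τ : Fin 4 → Nat := fun i => 4 * (r1 i).val + (r2 i).val with hτ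
  have hlt : ∀ i, τ i < 16 := by
    intro i
    have a1 := (r1 i).isLt
    have a2 := (r2 i).isLt
    show 4 * (r1 i).val + (r2 i).val < 16
    omega
  have hA : ∀ i, τ i / 4 = (r1 i).val := by
    intro i
    have a1 := (r1 i).isLt
    have a2 := (r2 i).isLt
    show (4 * (r1 i).val + (r2 i).val) / 4 = (r1 i).val
    omega
  have hB : ∀ i, τ i % 4 = (r2 i).val := by
    intro i
    have a1 := (r1 i).isLt
    have a2 := (r2 i).isLt
    show (4 * (r1 i).val + (r2 i).val) % 4 = (r2 i).val
    omega
  have hgood : Good τ → FirstWins (IsLine 4 4) {m1, m2} {r1, r2} := by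
    intro h
    have e1 : pA τ = r1 := by
      funext i
      apply Fin.ext
      show τ i / 4 % 4 = (r1 i).val
      rw [hA]
      have a1 := (r1 i).isLt
      omega
    have e2 : pB τ = r2 := by
      funext i
      apply Fin.ext
      exact hB i
    unfold Good at h
    rwa [e1, e2] at h
  apply hgood
  set σ := Tuple.sort τ with hσ
  have hmono : Monotone (τ ∘ σ) := Tuple.monotone_sort τ
  have key : Good (fun i => τ (σ i)) → Good τ := by
    intro h
    have h3 := good_perm σ.symm _ h
    simpa using h3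
  apply key
  have e : (fun i => τ (σ i)) = ![τ (σ 0), τ (σ 1), τ (σ 2), τ (σ 3)] := by
    funext i
    fin_cases i <;> rfl
  rw [e]
  show P _ _ _ _
  have hcov : covered M (τ (σ 0)) (τ (σ 1)) (τ (σ 2)) (τ (σ 3)) = true := by
    have h4 : covered2 M (τ (σ 0)) (τ (σ 1)) (τ (σ 2)) (τ (σ 3)) = true :=
      allB_spec _ _ (allB_spec _ _ (allB_spec _ _ (allB_spec _ _ hc _ (hlt _)) _ (hlt _)) _
        (hlt _)) _ (hlt _)
    unfold covered2 at h4
    rw [Bool.or_eq_true] at h4
    rcases h4 with h4 | h4
    · exfalso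
      rw [hA, hA, hA, hA] at h4
      exact hnr (rich_perm σ r1 h4)
    · exact h4
  have hs : (Nat.ble (τ (σ 0)) (τ (σ 1)) && (Nat.ble (τ (σ 1)) (τ (σ 2)) &&
      Nat.ble (τ (σ 2)) (τ (σ 3)))) = true := by
    simp only [Bool.and_eq_true, Nat.ble_eq]
    exact ⟨hmono (by decide), hmono (by decide), hmono (by decide)⟩
  -- excluded cases
  have ex1 : ∀ (r : Fin 4 → Fin 4) (x : Fin 4), r ≠ (fun _ => x) →
      ¬ ((r (σ 0)).val = x.val ∧ (r (σ 1)).val = x.val ∧ (r (σ 2)).val = x.val ∧
        (r (σ 3)).val = x.val) := by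
    rintro r x hr ⟨b0, b1, b2, b3⟩
    apply hr
    funext j
    apply Fin.ext
    obtain ⟨i, rfl⟩ := σ.surjective j
    fin_cases i
    · exact b0
    · exact b1
    · exact b2
    · exact b3
  unfold covered at hcov
  rw [hs] at hcov
  simp only [Bool.not_true, Bool.false_or, Bool.or_eq_true] at hcov
  rcases hcov with h | h | h | h | h | h | h | h | h
  · exfalso
    unfold allEq at h
    simp only [Bool.and_eq_true, Nat.beq_eq, hA] at h
    exact ex1 r1 0 h1 h
  · exfalso
    unfold allEq at h
    simp only [Bool.and_eq_true, Nat.beq_eq, hA] at h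
    exact ex1 r1 1 h1' h
  · exfalso
    unfold allEq at h
    simp only [Bool.and_eq_true, Nat.beq_eq, hB] at h
    exact ex1 r2 0 h2 h
  · exfalso
    unfold allEq at h
    simp only [Bool.and_eq_true, Nat.beq_eq, hB] at h
    exact ex1 r2 1 h2' h
  · exfalso
    simp only [Bool.and_eq_true, Nat.beq_eq, hA, hB] at h
    apply h12
    obtain ⟨b0, b1, b2, b3⟩ := h
    funext j
    apply Fin.ext
    obtain ⟨i, rfl⟩ := σ.surjective j
    fin_cases i
    · exact b0
    · exact b1
    · exact b2
    · exact b3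
  · exact (inv_sidx _ _ _ _ (hlt _) (hlt _) (hlt _) (hlt _)).1 (hM _ (bit_spec _ _ h))
  · exact P_sw (hlt _) (hlt _) (hlt _) (hlt _)
      ((inv_sidx _ _ _ _ (sw_lt _ (hlt _)) (sw_lt _ (hlt _)) (sw_lt _ (hlt _))
        (sw_lt _ (hlt _))).1 (hM _ (bit_spec _ _ h)))
  · exact P_ex (hlt _) (hlt _) (hlt _) (hlt _)
      ((inv_sidx _ _ _ _ (ex_lt _ (hlt _)) (ex_lt _ (hlt _)) (ex_lt _ (hlt _))
        (ex_lt _ (hlt _))).1 (hM _ (bit_spec _ _ h)))
  · exact P_sw (hlt _) (hlt _) (hlt _) (hlt _)
      (P_ex (sw_lt _ (hlt _)) (sw_lt _ (hlt _)) (sw_lt _ (hlt _)) (sw_lt _ (hlt _))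
        ((inv_sidx _ _ _ _ (ex_lt _ (sw_lt _ (hlt _))) (ex_lt _ (sw_lt _ (hlt _)))
          (ex_lt _ (sw_lt _ (hlt _))) (ex_lt _ (sw_lt _ (hlt _)))).1 (hM _ (bit_spec _ _ h))))

/-- the position after the first move and a reply -/
theorem after_one2 (M : Nat) (hM : ∀ k, M.testBit k = true → PI k) (hc : coverAll2 M = true)
    (r1 : Fin 4 → Fin 4) (h1 : r1 ≠ m1) (h1' : r1 ≠ m2) (hnr : ¬ Rich r1) :
    FirstWins (IsLine 4 4) {m1} {r1} := by
  have hm : m2 ≠ m1 := by
    intro h
    have := congrFun h 0
    exact absurd this (by decide)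
  refine FirstWins.move _ _ m2 ?_ ?_ ?_ ?_ ?_
  · rw [Finset.mem_singleton]; exact hm
  · rw [Finset.mem_singleton]; exact fun h => h1' h.symm
  · obtain ⟨w, hw⟩ := exists_fresh {m2, m1, r1}
      (lt_of_le_of_lt Finset.card_le_three (by norm_num))
    simp only [Finset.mem_insert, Finset.mem_singleton, not_or] at hw
    exact ⟨w, by simp [hw.1, hw.2.1], by simp [hw.2.2]⟩
  · intro w _ _
    exact not_small (lt_of_le_of_lt Finset.card_le_two (by norm_num))
  · intro w hw1 hw2
    simp only [Finset.mem_insert, Finset.mem_singleton, not_or] at hw1 hw2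
    have h := good_all2 M hM hc r1 w h1 h1' hw1.2 hw1.1 (fun h => hw2 h.symm) hnr
    rw [Finset.pair_comm m2 m1, Finset.pair_comm w r1]
    exact h

/-- the symmetries fixing the first move -/
def H0 : List (Nat × Nat) :=
  [(228, 228), (180, 228), (216, 228), (120, 228), (156, 228), (108, 228), (225, 228), (177, 228),
  (201, 228), (57, 228), (141, 228), (45, 228), (210, 228), (114, 228), (198, 228), (54, 228), (78,
  228), (30, 228), (147, 228), (99, 228), (135, 228), (39, 228), (75, 228), (27, 228), (228, 216),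
  (180, 216), (216, 216), (120, 216), (156, 216), (108, 216), (225, 216), (177, 216), (201, 216),
  (57, 216), (141, 216), (45, 216), (210, 216), (114, 216), (198, 216), (54, 216), (78, 216), (30,
  216), (147, 216), (99, 216), (135, 216), (39, 216), (75, 216), (27, 216)]

/-- representatives of the special replies -/
def reps : List Nat := [3, 15, 63, 255, 90, 106, 170]

theorem H0_ok : ∀ g ∈ H0, GOK 0 0 g := by decide +kernel

theorem reps_ok : allB (fun c => !(richB (dd c 0) (dd c 1) (dd c 2) (dd c 3)) ||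
    (Nat.beq c 0 || bit (orbs H0 reps) c)) 256 = true := by decide +kernel

theorem final2 (M : Nat) (hM : ∀ k, M.testBit k = true → PI k) (hc : coverAll2 M = true)
    (hreps : ∀ r ∈ reps, FirstWins (IsLine 4 4) {m1} {ofCode r}) :
    FirstWins (IsLine 4 4) ∅ ∅ := by
  refine FirstWins.move _ _ m1 (by simp) (by simp) ?_ ?_ ?_
  · obtain ⟨w, hw⟩ := exists_fresh {m1} (by simp)
    exact ⟨w, by simpa using hw, by simp⟩
  · intro w _ _
    refine not_small ?_
    rw [Finset.card_insert_of_notMem (by simp)]
    simp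
  · intro w hw1 _
    rw [insert_empty_eq, Finset.mem_singleton] at hw1
    rw [insert_empty_eq, insert_empty_eq]
    by_cases h : Rich w
    · have hx := code_lt w
      have h1 := allB_spec _ _ reps_ok _ hx
      have hw : ofCode (code w) = w := by
        apply code_inj
        rw [code_ofCode _ hx]
      have h2 : richB (dd (code w) 0) (dd (code w) 1) (dd (code w) 2) (dd (code w) 3) = true := by
        have h3 := h
        unfold Rich at h3
        rw [← hw] at h3
        exact h3
      rw [h2, Bool.not_true, Bool.false_or, Bool.or_eq_true] at h1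
      rcases h1 with h1 | h1
      · exfalso
        apply hw1
        rw [Nat.beq_eq] at h1
        rw [← hw, h1, ofCode_zero]
      · obtain ⟨b, hb, g, hg, h4⟩ := orbs_spec H0 reps _ (bit_spec _ _ h1)
        have h5 := hreps b hb
        obtain ⟨g1, g2, g3, g4, _⟩ := H0_ok g hg
        have h6 : FirstWins (IsLine 4 4) {m1, m1} {ofCode b, ofCode b} := by
          rw [Finset.pair_eq_singleton, Finset.pair_eq_singleton]
          exact h5
        have h7 := fw_pact g1 g2 g3 h6
        rw [Finset.pair_eq_singleton, Finset.pair_eq_singleton] at h7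
        have h8 : pact (ofCode g.1) (ofCode g.2) (ofCode b) = w := by
          apply code_inj
          rw [ga_eq, h4]
        have h9 : pact (ofCode g.1) (ofCode g.2) m1 = m1 := by
          rw [← ofCode_zero]
          apply code_inj
          rw [ga_eq, code_ofCode 0 (by norm_num)]
          rcases g4 with g4 | g4 <;> exact g4.1
        rw [h8, h9] at h7
        exact h7
    · refine after_one2 M hM hc w hw1 ?_ h
      rintro rfl
      exact h (by unfold Rich; decide)

end Pool.Agent.TTT
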