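import Pool.Agent.TTT.Trans

set_option autoImplicit false

/-!
# Symmetries with reversals of single coordinates
-/

namespace Pool.Agent.TTT

/-- reversal of a digit -/
def fl (c v : Nat) : Nat := if c = 0 then v else 3 - v

theorem fl_lt (c v : Nat) (h : v < 4) : fl c v < 4 := by
  unfold fl
  split_ifs <;> omega

theorem fl_fl (c v : Nat) (h : v < 4) : fl c (fl c v) = v := by
  unfold fl
  split_ifs <;> omega

/-- reversal of the coordinates `i` with `c i ≠ 0` -/
def fact (c x : Fin 4 → Fin 4) : Fin 4 → Fin 4 :=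
  fun i => ⟨fl (c i).val (x i).val, fl_lt _ _ (x i).isLt⟩

theorem fact_fact (c x : Fin 4 → Fin 4) : fact c (fact c x) = x := by
  funext i
  apply Fin.ext
  exact fl_fl _ _ (x i).isLt

def factE (c : Fin 4 → Fin 4) : (Fin 4 → Fin 4) ≃ (Fin 4 → Fin 4) where
  toFun := fact c
  invFun := fact c
  left_inv := fact_fact c
  right_inv := fact_fact c

theorem line_factE (c : Fin 4 → Fin 4) (l : Finset (Fin 4 → Fin 4)) (hl : IsLine 4 4 l) :
    IsLine 4 4 (l.map (factE c).toEmbedding) := by
  obtain ⟨x, h1, ⟨i, hi⟩, rfl⟩ := hl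
  refine ⟨fun t => fact c (x t), ?_, ⟨i, ?_⟩, ?_⟩
  · intro j
    by_cases hc : (c j).val = 0
    · have key : ∀ t, fact c (x t) j = x t j := by
        intro t
        apply Fin.ext
        show fl (c j).val (x t j).val = (x t j).val
        unfold fl
        rw [if_pos hc]
      rcases h1 j with ⟨a, ha⟩ | h | h
      · exact Or.inl ⟨a, fun t => (key t).trans (ha t)⟩
      · exact Or.inr (Or.inl fun t => (key t).trans (h t))
      · exact Or.inr (Or.inr fun t => (key t).trans (h t))
    · have key : ∀ t, fact c (x t) j = Fin.rev (x t j) := by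
        intro t
        apply Fin.ext
        show fl (c j).val (x t j).val = _
        unfold fl
        rw [if_neg hc, Fin.val_rev]
        have := (x t j).isLt
        omega
      rcases h1 j with ⟨a, ha⟩ | h | h
      · exact Or.inl ⟨Fin.rev a, fun t => (key t).trans (by rw [ha])⟩
      · exact Or.inr (Or.inr fun t => (key t).trans (by rw [h]))
      · exact Or.inr (Or.inl fun t => (key t).trans (by rw [h, Fin.rev_rev]))
  · rintro ⟨a, ha⟩
    apply hi
    refine ⟨fact c (fun _ => a) i, fun t => ?_⟩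
    have h2 := ha t
    change fact c (x t) i = a at h2
    have h3 := congrFun (fact_fact c (x t)) i
    rw [← h3]
    apply Fin.ext
    show fl (c i).val (fact c (x t) i).val = fl (c i).val a.val
    rw [h2]
  · rw [Finset.map_eq_image, Finset.image_image]
    rfl

/-- the action of a permutation of the coordinates, a permutation of the values, and reversals -/
def pact3 (p q c x : Fin 4 → Fin 4) : Fin 4 → Fin 4 := fact c (pact p q x)

theorem fw_pact3 {p q c : Fin 4 → Fin 4} (hp : Function.Injective p) (hq : Function.Injective q)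
    (hr : ∀ a, q (Fin.rev a) = Fin.rev (q a)) {a b a' b' : Fin 4 → Fin 4}
    (h : FirstWins (IsLine 4 4) {a, b} {a', b'}) :
    FirstWins (IsLine 4 4) {pact3 p q c a, pact3 p q c b} {pact3 p q c a', pact3 p q c b'} := by
  have h1 := (fw_pact hp hq hr h).map (factE c) (line_factE c) (line_factE c)
  simp only [Finset.map_insert, Finset.map_singleton] at h1
  exact h1

/-- the action on the codes -/
def ga3 (g : Nat × Nat × Nat) (x : Nat) : Nat :=
  fl (dd g.2.2 0) (dd g.2.1 (dd x (dd g.1 0))) + 4 * fl (dd g.2.2 1) (dd g.2.1 (dd x (dd g.1 1))) +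
    16 * fl (dd g.2.2 2) (dd g.2.1 (dd x (dd g.1 2))) +
    64 * fl (dd g.2.2 3) (dd g.2.1 (dd x (dd g.1 3)))

/-- the action on the points -/
def pa (g : Nat × Nat × Nat) (x : Fin 4 → Fin 4) : Fin 4 → Fin 4 :=
  pact3 (ofCode g.1) (ofCode g.2.1) (ofCode g.2.2) x

theorem ga3_eq (g : Nat × Nat × Nat) (x : Nat) : code (pa g (ofCode x)) = ga3 g x := rfl

/-- `g = (p, q, c)` is the code of a symmetry of the board -/
def G3 (g : Nat × Nat × Nat) : Prop :=
  Function.Injective (ofCode g.1) ∧ Function.Injective (ofCode g.2.1) ∧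
  (∀ a, ofCode g.2.1 (Fin.rev a) = Fin.rev (ofCode g.2.1 a))

instance (g : Nat × Nat × Nat) : Decidable (G3 g) := by
  unfold G3; infer_instance

/-- `g` is a symmetry of the position `{0, m}, {r}` -/
def GOK3 (m r : Nat) (g : Nat × Nat × Nat) : Prop :=
  G3 g ∧ ((ga3 g 0 = 0 ∧ ga3 g m = m) ∨ (ga3 g 0 = m ∧ ga3 g m = 0)) ∧ ga3 g r = r

instance (m r : Nat) (g : Nat × Nat × Nat) : Decidable (GOK3 m r g) := by
  unfold GOK3; infer_instance

theorem pa_key (g : Nat × Nat × Nat) (c c' : Nat) (hc' : c' < 256) (h : ga3 g c = c') :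
    pa g (ofCode c) = ofCode c' := by
  apply code_inj
  rw [ga3_eq, code_ofCode c' hc', h]

/-- transport by a symmetry -/
theorem Q_trans3 {m r b m' r' b' : Nat} (hm : m' < 256) (hr : r' < 256) (hb : b' < 256)
    (g : Nat × Nat × Nat) (hg : G3 g ∧ ((ga3 g 0 = 0 ∧ ga3 g m = m') ∨ (ga3 g 0 = m' ∧ ga3 g m = 0)) ∧
      ga3 g r = r' ∧ ga3 g b = b')
    (h : Q (ofCode m) (ofCode r) (ofCode b)) : Q (ofCode m') (ofCode r') (ofCode b') := by
  obtain ⟨⟨h1, h2, h3⟩, h4, h5, h5'⟩ := hg
  have h6 := fw_pact3 (c := ofCode g.2.2) h1 h2 h3 h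
  unfold Q
  rw [← ofCode_zero] at h6 ⊢
  have e1 : pact3 (ofCode g.1) (ofCode g.2.1) (ofCode g.2.2) (ofCode r) = ofCode r' :=
    pa_key g r r' hr h5
  have e2 : pact3 (ofCode g.1) (ofCode g.2.1) (ofCode g.2.2) (ofCode b) = ofCode b' :=
    pa_key g b b' hb h5'
  rw [e1, e2] at h6
  rcases h4 with ⟨h4, h4'⟩ | ⟨h4, h4'⟩
  · have e3 : pact3 (ofCode g.1) (ofCode g.2.1) (ofCode g.2.2) (ofCode 0) = ofCode 0 :=
      pa_key g 0 0 (by norm_num) h4
    have e4 : pact3 (ofCode g.1) (ofCode g.2.1) (ofCode g.2.2) (ofCode m) = ofCode m' :=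
      pa_key g m m' hm h4'
    rw [e3, e4] at h6
    exact h6
  · have e3 : pact3 (ofCode g.1) (ofCode g.2.1) (ofCode g.2.2) (ofCode 0) = ofCode m' :=
      pa_key g 0 m' hm h4
    have e4 : pact3 (ofCode g.1) (ofCode g.2.1) (ofCode g.2.2) (ofCode m) = ofCode 0 :=
      pa_key g m 0 (by norm_num) h4'
    rw [e3, e4, Finset.pair_comm] at h6
    exact h6

/-- the orbit of a code -/
def orb3 (b : Nat) : List (Nat × Nat × Nat) → Nat
  | [] => 0
  | g :: H => Nat.lor (Nat.shiftLeft 1 (ga3 g b)) (orb3 b H)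

def orbs3 (H : List (Nat × Nat × Nat)) : List Nat → Nat
  | [] => 0
  | b :: l => Nat.lor (orb3 b H) (orbs3 H l)

theorem orb3_spec (b : Nat) (H : List (Nat × Nat × Nat)) (c : Nat)
    (h : (orb3 b H).testBit c = true) : ∃ g ∈ H, ga3 g b = c := by
  induction H with
  | nil => rw [orb3] at h; simp at h
  | cons x H ih =>
    rw [orb3, lor_eq, Nat.testBit_or, shift_bit, Bool.or_eq_true, decide_eq_true_eq] at h
    rcases h with h | h
    · exact ⟨x, by simp, h⟩
    · obtain ⟨g, hg, h1⟩ := ih h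
      exact ⟨g, by simp [hg], h1⟩

theorem orbs3_spec (H : List (Nat × Nat × Nat)) (l : List Nat) (c : Nat)
    (h : (orbs3 H l).testBit c = true) : ∃ b ∈ l, ∃ g ∈ H, ga3 g b = c := by
  induction l with
  | nil => rw [orbs3] at h; simp at h
  | cons x l ih =>
    rw [orbs3, lor_eq, Nat.testBit_or, Bool.or_eq_true] at h
    rcases h with h | h
    · exact ⟨x, by simp, orb3_spec x H c h⟩
    · obtain ⟨b, hb, h1⟩ := ih h
      exact ⟨b, by simp [hb], h1⟩

/-- the orbits of the roots are everything -/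
def cov3 (m r : Nat) (H : List (Nat × Nat × Nat)) (l : List Nat) : Bool :=
  Nat.beq (Nat.lor (orbs3 H l) (Nat.lor 1 (Nat.lor (Nat.shiftLeft 1 m) (Nat.shiftLeft 1 r))))
    (Nat.pred (Nat.shiftLeft 1 256))

theorem cover3 {m r : Nat} (hm : m < 256) (hr : r < 256) (H : List (Nat × Nat × Nat))
    (hH : ∀ g ∈ H, GOK3 m r g) (l : List Nat)
    (hl : AllQ m r l) (hc : cov3 m r H l = true)
    (x : Fin 4 → Fin 4) (h0 : x ≠ m1) (h1 : x ≠ ofCode m) (h2 : x ≠ ofCode r) :
    Q (ofCode m) (ofCode r) x := by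
  unfold cov3 at hc
  rw [Nat.beq_eq] at hc
  have hx := code_lt x
  have h3 : (Nat.pred (Nat.shiftLeft 1 256)).testBit (code x) = true := by
    have : Nat.pred (Nat.shiftLeft 1 256) = 2 ^ 256 - 1 := by decide +kernel
    rw [this, Nat.testBit_two_pow_sub_one]
    exact decide_eq_true hx
  rw [← hc, lor_eq, lor_eq, lor_eq, Nat.testBit_or, Nat.testBit_or, Nat.testBit_or, shift_bit,
    shift_bit, Bool.or_eq_true, Bool.or_eq_true, Bool.or_eq_true, decide_eq_true_eq,
    decide_eq_true_eq] at h3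
  have key : ∀ c, c < 256 → c = code x → ofCode c = x := by
    intro c hc h
    apply code_inj
    rw [code_ofCode c hc, h]
  rcases h3 with h3 | h3 | h3 | h3
  · obtain ⟨b, hb, g, hg, h4⟩ := orbs3_spec H l _ h3
    obtain ⟨g1, g2, g3⟩ := hH g hg
    have h5 := Q_trans3 (b' := code x) hm hr hx g ⟨g1, g2, g3, h4⟩ (hl b hb)
    rw [key _ hx rfl] at h5
    exact h5
  · exfalso
    have h4 : code x = 0 := Nat.testBit_one_eq_true_iff_self_eq_zero.1 h3
    apply h0
    rw [← key 0 (by norm_num) h4.symm, ofCode_zero]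
  · exact absurd (key m hm h3).symm h1
  · exact absurd (key r hr h3).symm h2

/-- the position after the first move and the reply `r` -/
theorem after_two3 {m r : Nat} (hm : m < 256) (hr : r < 256) (hm0 : m ≠ 0)
    (hmr : m ≠ r) (H : List (Nat × Nat × Nat)) (hH : ∀ g ∈ H, GOK3 m r g) (l : List Nat)
    (hl : AllQ m r l) (hc : cov3 m r H l = true) :
    FirstWins (IsLine 4 4) {m1} {ofCode r} := by
  have hne : ∀ c c' : Nat, c < 256 → c' < 256 → c ≠ c' → ofCode c ≠ ofCode c' := by
    intro c c' hc hc' hn he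
    apply hn
    rw [← code_ofCode c hc, ← code_ofCode c' hc', he]
  have hm1 : ofCode m ≠ m1 := by
    rw [← ofCode_zero]; exact hne m 0 hm (by norm_num) hm0
  have hmr' : ofCode m ≠ ofCode r := hne m r hm hr hmr
  refine FirstWins.move _ _ (ofCode m) ?_ ?_ ?_ ?_ ?_
  · rw [Finset.mem_singleton]; exact hm1
  · rw [Finset.mem_singleton]; exact hmr'
  · obtain ⟨w, hw⟩ := exists_fresh {ofCode m, m1, ofCode r}
      (lt_of_le_of_lt Finset.card_le_three (by norm_num))
    simp only [Finset.mem_insert, Finset.mem_singleton, not_or] at hw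
    exact ⟨w, by simp [hw.1, hw.2.1], by simp [hw.2.2]⟩
  · intro w _ _
    exact not_small (lt_of_le_of_lt Finset.card_le_two (by norm_num))
  · intro w hw1 hw2
    simp only [Finset.mem_insert, Finset.mem_singleton, not_or] at hw1 hw2
    have h := cover3 hm hr H hH l hl hc w hw1.2 hw1.1 hw2
    rw [Finset.pair_comm (ofCode m) m1, Finset.pair_comm w (ofCode r)]
    exact h

end Pool.Agent.TTT
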