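import Pool.Agent.TTT.Final2
import Pool.Agent.TTT.Sym3
import Pool.Agent.TTT.Cert.A01
import Pool.Agent.TTT.Cert.A02
import Pool.Agent.TTT.Cert.A03
import Pool.Agent.TTT.Cert.A04
import Pool.Agent.TTT.Cert.A05
import Pool.Agent.TTT.Cert.A06
import Pool.Agent.TTT.Cert.A07
import Pool.Agent.TTT.Cert.A08
import Pool.Agent.TTT.Cert.A09
import Pool.Agent.TTT.Cert.A10
import Pool.Agent.TTT.Cert.A11
import Pool.Agent.TTT.Cert.A12
import Pool.Agent.TTT.Cert.A13
import Pool.Agent.TTT.Cert.A14
import Pool.Agent.TTT.Cert.A15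
import Pool.Agent.TTT.Cert.A16
import Pool.Agent.TTT.Cert.A17
import Pool.Agent.TTT.Cert.A18
import Pool.Agent.TTT.Cert.B01
import Pool.Agent.TTT.Cert.B02
import Pool.Agent.TTT.Cert.B03
import Pool.Agent.TTT.Cert.B04
import Pool.Agent.TTT.Cert.B05
import Pool.Agent.TTT.Cert.B06
import Pool.Agent.TTT.Cert.B07
import Pool.Agent.TTT.Cert.B08
import Pool.Agent.TTT.Cert.B09
import Pool.Agent.TTT.Cert.B10
import Pool.Agent.TTT.Cert.B11
import Pool.Agent.TTT.Cert.B12
import Pool.Agent.TTT.Cert.C01
import Pool.Agent.TTT.Cert.C02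
import Pool.Agent.TTT.Cert.C03
import Pool.Agent.TTT.Cert.C04
import Pool.Agent.TTT.Cert.D01
import Pool.Agent.TTT.Cert.D02
import Pool.Agent.TTT.Cert.D03
import Pool.Agent.TTT.Cert.D04
import Pool.Agent.TTT.Cert.D05
import Pool.Agent.TTT.Cert.E01
import Pool.Agent.TTT.Cert.E02
import Pool.Agent.TTT.Cert.E03
import Pool.Agent.TTT.Cert.E04
import Pool.Agent.TTT.Cert.E05
import Pool.Agent.TTT.Cert.E06
import Pool.Agent.TTT.Cert.F01
import Pool.Agent.TTT.Cert.F02
import Pool.Agent.TTT.Cert.F03
import Pool.Agent.TTT.Cert.F04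
import Pool.Agent.TTT.Cert.G01
import Pool.Agent.TTT.Cert.G02
import Pool.Agent.TTT.Cert.G03
import Pool.Agent.TTT.Cert.G04
import Pool.Agent.TTT.Cert.G05
import Pool.Agent.TTT.Cert.G06
import Pool.Agent.TTT.Cert.G07
import Pool.Agent.TTT.Cert.H01
import Pool.Agent.TTT.Cert.H02
import Pool.Agent.TTT.Cert.H03
import Pool.Agent.TTT.Cert.H04
import Pool.Agent.TTT.Cert.H05
import Pool.Agent.TTT.Cert.H06
import Pool.Agent.TTT.Cert.I01
import Pool.Agent.TTT.Cert.I02
import Pool.Agent.TTT.Cert.I03
import Pool.Agent.TTT.Cert.I04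
import Pool.Agent.TTT.Cert.I05
import Pool.Agent.TTT.Cert.I06

set_option autoImplicit false
set_option maxRecDepth 100000

/-!
# The 4 x 4 x 4 x 4 game is won by the first player
-/

namespace Pool.Agent.TTT

/-- the pairs of replies with certificates -/
def M0 : Nat :=
  Nat.lor (bits A01.certs) (Nat.lor (bits A02.certs) (Nat.lor (bits A03.certs) (Nat.lor (bits
  A04.certs) (Nat.lor (bits A05.certs) (Nat.lor (bits A06.certs) (Nat.lor (bits A07.certs) (Nat.lor
  (bits A08.certs) (Nat.lor (bits A09.certs) (Nat.lor (bits A10.certs) (Nat.lor (bits A11.certs)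
  (Nat.lor (bits A12.certs) (Nat.lor (bits A13.certs) (Nat.lor (bits A14.certs) (Nat.lor (bits
  A15.certs) (Nat.lor (bits A16.certs) (Nat.lor (bits A17.certs) (Nat.lor (bits A18.certs) (Nat.lor
  (bits B01.certs) (Nat.lor (bits B02.certs) (Nat.lor (bits B03.certs) (Nat.lor (bits B04.certs)
  (Nat.lor (bits B05.certs) (Nat.lor (bits B06.certs) (Nat.lor (bits B07.certs) (Nat.lor (bits
  B08.certs) (Nat.lor (bits B09.certs) (Nat.lor (bits B10.certs) (Nat.lor (bits B11.certs) (bits
  B12.certs)))))))))))))))))))))))))))))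

theorem M0_sound (k : Nat) (h : M0.testBit k = true) : PI k := by
  unfold M0 at h
  simp only [lor_eq, Nat.testBit_or, Bool.or_eq_true] at h
  rcases h with h | h | h | h | h | h | h | h | h | h | h | h | h | h | h | h | h | h | h | h | h | h | h | h | h | h | h | h | h | h
  · exact A01.sound k h
  · exact A02.sound k h
  · exact A03.sound k h
  · exact A04.sound k h
  · exact A05.sound k h
  · exact A06.sound k h
  · exact A07.sound k h
  · exact A08.sound k h
  · exact A09.sound k h
  · exact A10.sound k h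
  · exact A11.sound k h
  · exact A12.sound k h
  · exact A13.sound k h
  · exact A14.sound k h
  · exact A15.sound k h
  · exact A16.sound k h
  · exact A17.sound k h
  · exact A18.sound k h
  · exact B01.sound k h
  · exact B02.sound k h
  · exact B03.sound k h
  · exact B04.sound k h
  · exact B05.sound k h
  · exact B06.sound k h
  · exact B07.sound k h
  · exact B08.sound k h
  · exact B09.sound k h
  · exact B10.sound k h
  · exact B11.sound k h
  · exact B12.sound k h

theorem M0_cover : coverAll2 M0 = true := by decide +kernel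

/-- symmetries of the position `{0, 252}, {3}` -/
def HC : List (Nat × Nat × Nat) :=
  [(228, 228, 0), (228, 216, 0), (180, 228, 0), (180, 216, 0), (216, 228, 0), (216, 216, 0), (120,
  228, 0), (120, 216, 0), (156, 228, 0), (156, 216, 0), (108, 228, 0), (108, 216, 0)]

theorem repC : FirstWins (IsLine 4 4) {m1} {ofCode 3} :=
  after_two3 (m := 252) (r := 3) (by norm_num) (by norm_num) (by norm_num) (by norm_num) HC
    (by decide +kernel)
    (C01.l ++ (C02.l ++ (C03.l ++ C04.l)))
    (allQ_append C01.ok (allQ_append C02.ok (allQ_append C03.ok C04.ok)))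
    (by decide +kernel)

/-- symmetries of the position `{0, 255}, {15}` -/
def HD : List (Nat × Nat × Nat) :=
  [(228, 228, 0), (228, 216, 0), (180, 228, 0), (180, 216, 0), (225, 228, 0), (225, 216, 0), (177,
  228, 0), (177, 216, 0), (78, 228, 85), (78, 216, 85), (30, 228, 85), (30, 216, 85), (75, 228, 85),
  (75, 216, 85), (27, 228, 85), (27, 216, 85)]

theorem repD : FirstWins (IsLine 4 4) {m1} {ofCode 15} :=
  after_two3 (m := 255) (r := 15) (by norm_num) (by norm_num) (by norm_num) (by norm_num) HD
    (by decide +kernel)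
    (D01.l ++ (D02.l ++ (D03.l ++ (D04.l ++ D05.l))))
    (allQ_append D01.ok (allQ_append D02.ok (allQ_append D03.ok (allQ_append D04.ok D05.ok))))
    (by decide +kernel)

/-- symmetries of the position `{0, 255}, {63}` -/
def HE : List (Nat × Nat × Nat) :=
  [(228, 228, 0), (228, 216, 0), (216, 228, 0), (216, 216, 0), (225, 228, 0), (225, 216, 0), (201,
  228, 0), (201, 216, 0), (210, 228, 0), (210, 216, 0), (198, 228, 0), (198, 216, 0)]

theorem repE : FirstWins (IsLine 4 4) {m1} {ofCode 63} :=
  after_two3 (m := 255) (r := 63) (by norm_num) (by norm_num) (by norm_num) (by norm_num) HE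
    (by decide +kernel)
    (E01.l ++ (E02.l ++ (E03.l ++ (E04.l ++ (E05.l ++ E06.l)))))
    (allQ_append E01.ok (allQ_append E02.ok (allQ_append E03.ok (allQ_append E04.ok (allQ_append
    E05.ok E06.ok)))))
    (by decide +kernel)

/-- symmetries of the position `{0, 3}, {255}` -/
def HF : List (Nat × Nat × Nat) :=
  [(228, 228, 0), (228, 216, 0), (180, 228, 0), (180, 216, 0), (216, 228, 0), (216, 216, 0), (120,
  228, 0), (120, 216, 0), (156, 228, 0), (156, 216, 0), (108, 228, 0), (108, 216, 0)]

theorem repF : FirstWins (IsLine 4 4) {m1} {ofCode 255} :=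
  after_two3 (m := 3) (r := 255) (by norm_num) (by norm_num) (by norm_num) (by norm_num) HF
    (by decide +kernel)
    (F01.l ++ (F02.l ++ (F03.l ++ F04.l)))
    (allQ_append F01.ok (allQ_append F02.ok (allQ_append F03.ok F04.ok)))
    (by decide +kernel)

/-- symmetries of the position `{0, 63}, {170}` -/
def HG : List (Nat × Nat × Nat) :=
  [(228, 228, 0), (216, 228, 0), (225, 228, 0), (201, 228, 0), (210, 228, 0), (198, 228, 0)]

theorem repG : FirstWins (IsLine 4 4) {m1} {ofCode 170} :=
  after_two3 (m := 63) (r := 170) (by norm_num) (by norm_num) (by norm_num) (by norm_num) HG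
    (by decide +kernel)
    (G01.l ++ (G02.l ++ (G03.l ++ (G04.l ++ (G05.l ++ (G06.l ++ G07.l))))))
    (allQ_append G01.ok (allQ_append G02.ok (allQ_append G03.ok (allQ_append G04.ok (allQ_append
    G05.ok (allQ_append G06.ok G07.ok))))))
    (by decide +kernel)

/-- symmetries of the position `{0, 63}, {106}` -/
def HH : List (Nat × Nat × Nat) :=
  [(228, 228, 0), (216, 228, 0), (225, 228, 0), (201, 228, 0), (210, 228, 0), (198, 228, 0)]

theorem repH : FirstWins (IsLine 4 4) {m1} {ofCode 106} :=
  after_two3 (m := 63) (r := 106) (by norm_num) (by norm_num) (by norm_num) (by norm_num) HH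
    (by decide +kernel)
    (H01.l ++ (H02.l ++ (H03.l ++ (H04.l ++ (H05.l ++ H06.l)))))
    (allQ_append H01.ok (allQ_append H02.ok (allQ_append H03.ok (allQ_append H04.ok (allQ_append
    H05.ok H06.ok)))))
    (by decide +kernel)

/-- symmetries of the position `{0, 15}, {90}` -/
def HI : List (Nat × Nat × Nat) :=
  [(228, 228, 0), (180, 228, 0), (225, 228, 0), (177, 228, 0)]

theorem repI : FirstWins (IsLine 4 4) {m1} {ofCode 90} :=
  after_two3 (m := 15) (r := 90) (by norm_num) (by norm_num) (by norm_num) (by norm_num) HI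
    (by decide +kernel)
    (I01.l ++ (I02.l ++ (I03.l ++ (I04.l ++ (I05.l ++ I06.l)))))
    (allQ_append I01.ok (allQ_append I02.ok (allQ_append I03.ok (allQ_append I04.ok (allQ_append
    I05.ok I06.ok)))))
    (by decide +kernel)

theorem reps_won : ∀ r ∈ reps, FirstWins (IsLine 4 4) {m1} {ofCode r} := by
  intro r hr
  unfold reps at hr
  simp only [List.mem_cons, List.not_mem_nil, or_false] at hr
  rcases hr with rfl | rfl | rfl | rfl | rfl | rfl | rfl
  · exact repC
  · exact repD
  · exact repE
  · exact repF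
  · exact repI
  · exact repH
  · exact repG

/-- The first player wins. -/
theorem four_four : FirstWins (IsLine 4 4) ∅ ∅ :=
  final2 M0 M0_sound M0_cover reps_won

end Pool.Agent.TTT
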