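import Pool.Agent.TTT.Defs
import Pool.Agent.TTT.Core
import Pool.Agent.TTT.Bits

set_option autoImplicit false
set_option linter.unusedSectionVars false

/-!
# Soundness of the checker
-/

namespace Pool.Agent.TTT

variable {V : Type} [DecidableEq V]

/-! ### Abstract lemmas -/

section Abs

variable {line : Finset V → Prop}

theorem no_complete (hcard : ∀ l, line l → l.card = 4) {A B : Finset V} {v w : V}
    (hvB : v ∉ B) (hAB : Disjoint A B)
    (hthr : ∀ l, line l → Disjoint l A → 3 ≤ (l ∩ B).card → v ∈ l)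
    (hw : w ∉ insert v A) : ¬ ∃ l, line l ∧ l ⊆ insert w B := by
  rintro ⟨l, hl, hsub⟩
  rw [Finset.mem_insert, not_or] at hw
  have h1 : Disjoint l A := by
    rw [Finset.disjoint_left]
    intro x hx hxA
    rcases Finset.mem_insert.1 (hsub hx) with h | h
    · rw [h] at hxA; exact hw.2 hxA
    · exact (Finset.disjoint_left.1 hAB hxA) h
  have h2 : 3 ≤ (l ∩ B).card := by
    have h3 : l.erase w ⊆ l ∩ B := by
      intro x hx
      rw [Finset.mem_erase] at hx
      rw [Finset.mem_inter]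
      refine ⟨hx.2, ?_⟩
      rcases Finset.mem_insert.1 (hsub hx.2) with h | h
      · exact absurd h hx.1
      · exact h
    have h4 := Finset.card_le_card h3
    have h5 := Finset.pred_card_le_card_erase (s := l) (a := w)
    rw [hcard l hl] at h5
    omega
  rcases Finset.mem_insert.1 (hsub (hthr l hl h1 h2)) with h | h
  · exact hw.1 h.symm
  · exact hvB h

theorem threat_step (hcard : ∀ l, line l → l.card = 4) {A B l : Finset V} {v u : V}
    (hl : line l) (huv : u ≠ v) (hsub : ∀ w ∈ l, w ≠ v → w ≠ u → w ∈ A)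
    (hvA : v ∉ A) (hvB : v ∉ B) (huA : u ∉ A) (huB : u ∉ B) (hAB : Disjoint A B)
    (hthr : ∀ l, line l → Disjoint l A → 3 ≤ (l ∩ B).card → v ∈ l)
    (hnext : FirstWins line (insert v A) (insert u B)) : FirstWins line A B := by
  refine FirstWins.move A B v hvA hvB ⟨u, by simp [huv, huA], huB⟩ ?_ ?_
  · intro w hw _
    exact no_complete hcard hvB hAB hthr hw
  · intro w hw hwB
    by_cases h : w = u
    · rw [h]; exact hnext
    · refine FirstWins.win _ _ u (by simp [huv, huA]) ?_ ⟨l, hl, ?_⟩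
      · rw [Finset.mem_insert, not_or]
        exact ⟨fun e => h e.symm, huB⟩
      · intro x hx
        by_cases h1 : x = u
        · simp [h1]
        · by_cases h2 : x = v
          · simp [h2]
          · simp [hsub x hx h2 h1]

theorem double_step (hcard : ∀ l, line l → l.card = 4) {A B l l' : Finset V} {v u u' : V}
    (hl : line l) (hl' : line l') (huv : u ≠ v) (huv' : u' ≠ v) (huu : u ≠ u')
    (hsub : ∀ w ∈ l, w ≠ v → w ≠ u → w ∈ A) (hsub' : ∀ w ∈ l', w ≠ v → w ≠ u' → w ∈ A)
    (hvA : v ∉ A) (hvB : v ∉ B) (huA : u ∉ A) (huB : u ∉ B) (huA' : u' ∉ A) (huB' : u' ∉ B)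
    (hAB : Disjoint A B)
    (hthr : ∀ l, line l → Disjoint l A → 3 ≤ (l ∩ B).card → v ∈ l) :
    FirstWins line A B := by
  refine threat_step hcard hl huv hsub hvA hvB huA huB hAB hthr ?_
  refine FirstWins.win _ _ u' (by simp [huv', huA']) ?_ ⟨l', hl', ?_⟩
  · rw [Finset.mem_insert, not_or]
    exact ⟨fun e => huu e.symm, huB'⟩
  · intro x hx
    by_cases h1 : x = u'
    · simp [h1]
    · by_cases h2 : x = v
      · simp [h2]
      · simp [hsub' x hx h2 h1]

theorem FirstWins.exists_free {A B : Finset V} (h : FirstWins line A B) :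
    ∃ v, v ∉ A ∧ v ∉ B := by
  cases h with
  | win _ _ v hX hO _ => exact ⟨v, hX, hO⟩
  | move _ _ v hX hO _ _ _ => exact ⟨v, hX, hO⟩

end Abs

/-! ### Bits -/

theorem land_eq (a b : Nat) : Nat.land a b = a &&& b := rfl
theorem lor_eq (a b : Nat) : Nat.lor a b = a ||| b := rfl
theorem xor_eq (a b : Nat) : Nat.xor a b = a ^^^ b := rfl
theorem mul_eq (a b : Nat) : Nat.mul a b = a * b := rfl

theorem beq_of_eq {a b : Nat} (h : a = b) : Nat.beq a b = true := by
  rw [Nat.beq_eq]; exact h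

theorem shift_bit (v i : Nat) : (Nat.shiftLeft 1 v).testBit i = decide (v = i) := by
  show (1 <<< v).testBit i = decide (v = i)
  rw [Nat.one_shiftLeft, Nat.testBit_two_pow]

theorem full_bit (nb i : Nat) : (full nb).testBit i = decide (i < nb) := by
  have h : full nb = 2 ^ nb - 1 := by
    show Nat.pred (1 <<< nb) = 2 ^ nb - 1
    rw [Nat.one_shiftLeft]; rfl
  rw [h, Nat.testBit_two_pow_sub_one]

theorem fold_bit (nb : Nat) : ∀ (k Z m j : Nat), m < 2 ^ k → Z.testBit (nb * m + j) = true →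
    (fold nb k Z).testBit j = true := by
  intro k
  induction k with
  | zero =>
    intro Z m j hm h
    have : m = 0 := by simpa using hm
    subst this
    simpa [fold] using h
  | succ k ih =>
    intro Z m j hm h
    rw [fold]
    by_cases hm' : m < 2 ^ k
    · apply ih _ m j hm'
      rw [lor_eq, Nat.testBit_or, h]; rfl
    · apply ih _ (m - 2 ^ k) j
      · rw [pow_succ] at hm; omega
      · rw [lor_eq, Nat.testBit_or]
        have h1 : (Nat.shiftRight Z (Nat.mul nb (Nat.shiftLeft 1 k))).testBit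
            (nb * (m - 2 ^ k) + j) = true := by
          show (Z >>> (nb * (1 <<< k))).testBit (nb * (m - 2 ^ k) + j) = true
          rw [Nat.testBit_shiftRight, Nat.one_shiftLeft]
          have h2 : nb * 2 ^ k + (nb * (m - 2 ^ k) + j) = nb * m + j := by
            have h3 : m = 2 ^ k + (m - 2 ^ k) := by omega
            calc nb * 2 ^ k + (nb * (m - 2 ^ k) + j) = nb * (2 ^ k + (m - 2 ^ k)) + j := by ring
              _ = nb * m + j := by rw [← h3]
          rw [h2]; exact h
        rw [h1]; simp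

/-! ### Models -/

/-- a board with `nb` cells whose lines have four cells, and its tables -/
structure Model (line : Finset V → Prop) (TT : Nat → Nat) (nb kk : Nat) where
  code : V → Nat
  inj : Function.Injective code
  surj : ∀ i, i < nb → ∃ w, code w = i
  lt : ∀ w, code w < nb
  card : ∀ l, line l → l.card = 4
  blk : ∀ c, c < nb → ∀ m, Nat.land (Nat.shiftRight (TT c) (Nat.mul nb m)) (full nb) ≠ 0 →
    ∃ l, line l ∧ ∀ i, (Nat.land (Nat.shiftRight (TT c) (Nat.mul nb m)) (full nb)).testBit i = true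
      ↔ ∃ w ∈ l, code w = i
  dir : Finset V → Nat
  dir_lt : ∀ l, line l → dir l < 2 ^ kk
  tt : ∀ l, line l → ∀ x ∈ l, ∀ w, (TT (code w)).testBit (nb * dir l + code x) = true ↔ w ∈ l

namespace Model

variable {line : Finset V → Prop} {TT : Nat → Nat} {nb kk : Nat} (M : Model line TT nb kk)

def pos (l : Finset V) (x : V) : Nat := nb * M.dir l + M.code x

def Rep (m : Nat) (A : Finset V) : Prop := ∀ v, m.testBit (M.code v) = true ↔ v ∈ A

theorem Rep.not {M : Model line TT nb kk} {m : Nat} {A : Finset V} (h : M.Rep m A) (v : V) :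
    m.testBit (M.code v) = false ↔ v ∉ A := by
  rw [← h v]; simp

theorem b_bit (v : Cell TT nb) (i : Nat) : v.b.testBit i = decide (v.c = i) := by
  rw [v.hb, shift_bit]

theorem land_b {Y : Nat} {v : Cell TT nb} (h : Nat.beq (Nat.land Y v.b) 0 = true) :
    Y.testBit v.c = false := by
  rw [Nat.beq_eq, land_eq] at h
  have h1 := congrArg (fun t => Nat.testBit t v.c) h
  simpa only [Nat.testBit_and, b_bit, decide_true, Bool.and_true, Nat.zero_testBit] using h1

theorem Rep.ins {M : Model line TT nb kk} {m : Nat} {A : Finset V} (h : M.Rep m A)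
    (v : Cell TT nb) (w : V) (hw : M.code w = v.c) : M.Rep (Nat.lor m v.b) (insert w A) := by
  intro x
  rw [lor_eq, Nat.testBit_or, Bool.or_eq_true, h x, b_bit, Finset.mem_insert, decide_eq_true_eq,
    ← hw]
  constructor
  · rintro (h1 | h1)
    · exact Or.inr h1
    · exact Or.inl (M.inj h1.symm)
  · rintro (h1 | h1)
    · exact Or.inr (by rw [h1])
    · exact Or.inl h1

/-- the position `(A, B)` is coded by the numbers -/
structure Sta (A B : Finset V) (X O XL o1 o2 o3 : Nat) : Prop where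
  dis : Disjoint A B
  hX : M.Rep X A
  hO : M.Rep O B
  hXL : ∀ l, line l → ∀ x ∈ l, XL.testBit (M.pos l x) = true → ¬ Disjoint l A
  h1 : ∀ l, line l → ∀ x ∈ l, 1 ≤ (l ∩ B).card → o1.testBit (M.pos l x) = true
  h2 : ∀ l, line l → ∀ x ∈ l, 2 ≤ (l ∩ B).card → o2.testBit (M.pos l x) = true
  h3 : ∀ l, line l → ∀ x ∈ l, 3 ≤ (l ∩ B).card → o3.testBit (M.pos l x) = true

theorem L_bit (v : Cell TT nb) (w : V) (hw : M.code w = v.c) (l : Finset V) (hl : line l) (x : V)
    (hx : x ∈ l) : v.L.testBit (M.pos l x) = true ↔ w ∈ l := by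
  rw [v.hL, ← hw]
  exact M.tt l hl x hx w

variable {M}
variable {A B : Finset V} {X O XL o1 o2 o3 : Nat}

theorem Sta.addX (h : M.Sta A B X O XL o1 o2 o3) (v : Cell TT nb) (w : V)
    (hw : M.code w = v.c) (hwB : w ∉ B) :
    M.Sta (insert w A) B (Nat.lor X v.b) O (Nat.lor XL v.L) o1 o2 o3 where
  dis := by
    rw [Finset.disjoint_insert_left]; exact ⟨hwB, h.dis⟩
  hX := h.hX.ins v w hw
  hO := h.hO
  hXL l hl x hx hb hd := by
    rw [Finset.disjoint_insert_right] at hd
    rw [lor_eq, Nat.testBit_or, Bool.or_eq_true] at hb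
    rcases hb with hb | hb
    · exact h.hXL l hl x hx hb hd.2
    · exact hd.1 ((M.L_bit v w hw l hl x hx).1 hb)
  h1 := h.h1
  h2 := h.h2
  h3 := h.h3

theorem Sta.addO (h : M.Sta A B X O XL o1 o2 o3) (e : Cell TT nb) (u : V)
    (hu : M.code u = e.c) (huA : u ∉ A) :
    M.Sta A (insert u B) X (Nat.lor O e.b) XL (Nat.lor o1 e.L) (Nat.lor o2 (Nat.land o1 e.L))
      (Nat.lor o3 (Nat.land o2 e.L)) := by
  have key : ∀ (l : Finset V) (k : Nat), k + 1 ≤ (l ∩ insert u B).card →
      k + 1 ≤ (l ∩ B).card ∨ (k ≤ (l ∩ B).card ∧ u ∈ l) := by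
    intro l k hk
    by_cases hul : u ∈ l
    · right
      refine ⟨?_, hul⟩
      have h1 : l ∩ insert u B ⊆ insert u (l ∩ B) := by
        intro y hy
        rw [Finset.mem_inter, Finset.mem_insert] at hy
        rw [Finset.mem_insert, Finset.mem_inter]
        tauto
      have h2 := (Finset.card_le_card h1).trans (Finset.card_insert_le _ _)
      omega
    · left
      have h1 : l ∩ insert u B ⊆ l ∩ B := by
        intro y hy
        rw [Finset.mem_inter, Finset.mem_insert] at hy
        rw [Finset.mem_inter]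
        refine ⟨hy.1, ?_⟩
        rcases hy.2 with h2 | h2
        · rw [h2] at hy; exact absurd hy.1 hul
        · exact h2
      exact hk.trans (Finset.card_le_card h1)
  refine ⟨?_, h.hX, h.hO.ins e u hu, h.hXL, ?_, ?_, ?_⟩
  · rw [Finset.disjoint_insert_right]; exact ⟨huA, h.dis⟩
  · intro l hl x hx hc
    rw [lor_eq, Nat.testBit_or, Bool.or_eq_true]
    rcases key l 0 hc with h1 | h1
    · exact Or.inl (h.h1 l hl x hx h1)
    · exact Or.inr ((M.L_bit e u hu l hl x hx).2 h1.2)
  · intro l hl x hx hc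
    rw [lor_eq, Nat.testBit_or, land_eq, Nat.testBit_and, Bool.or_eq_true, Bool.and_eq_true]
    rcases key l 1 hc with h1 | h1
    · exact Or.inl (h.h2 l hl x hx h1)
    · exact Or.inr ⟨h.h1 l hl x hx h1.1, (M.L_bit e u hu l hl x hx).2 h1.2⟩
  · intro l hl x hx hc
    rw [lor_eq, Nat.testBit_or, land_eq, Nat.testBit_and, Bool.or_eq_true, Bool.and_eq_true]
    rcases key l 2 hc with h1 | h1
    · exact Or.inl (h.h3 l hl x hx h1)
    · exact Or.inr ⟨h.h2 l hl x hx h1.1, (M.L_bit e u hu l hl x hx).2 h1.2⟩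

/-- lines with two cells in `B` which do not meet `A` -/
theorem Sta.zone (h : M.Sta A B X O XL o1 o2 o3) (l : Finset V) (hl : line l) (x : V)
    (hx : x ∈ l) (hd : Disjoint l A) (h2 : 2 ≤ (l ∩ B).card) :
    (Nat.xor o2 (Nat.land o2 XL)).testBit (M.pos l x) = true := by
  rw [xor_eq, land_eq, Nat.testBit_xor, Nat.testBit_and, h.h2 l hl x hx h2]
  cases hb : XL.testBit (M.pos l x)
  · rfl
  · exact absurd hd (h.hXL l hl x hx hb)

theorem exists_mem_line (M : Model line TT nb kk) (l : Finset V) (hl : line l) : ∃ x, x ∈ l := by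
  have h1 : 0 < l.card := by rw [M.card l hl]; norm_num
  exact Finset.card_pos.1 h1

/-- the move `v` meets all threats -/
theorem Sta.through (h : M.Sta A B X O XL o1 o2 o3) (v : Cell TT nb) (w : V)
    (hw : M.code w = v.c) (hv : Nat.beq (Nat.land o3 (Nat.lor XL v.L)) o3 = true) :
    ∀ l, line l → Disjoint l A → 3 ≤ (l ∩ B).card → w ∈ l := by
  intro l hl hd h3
  obtain ⟨x, hx⟩ := M.exists_mem_line l hl
  have h4 := h.h3 l hl x hx h3
  rw [Nat.beq_eq, land_eq, lor_eq] at hv
  rw [← hv, Nat.testBit_and, Nat.testBit_or, Bool.and_eq_true, Bool.or_eq_true] at h4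
  rcases h4.2 with h5 | h5
  · exact absurd hd (h.hXL l hl x hx h5)
  · exact (M.L_bit v w hw l hl x hx).1 h5

theorem lin_spec (M : Model line TT nb kk) {v : Cell TT nb} {m Y : Nat}
    (h : lin (full nb) v m Y = true) :
    ∃ l, line l ∧ ∀ x ∈ l, Y.testBit (M.code x) = true := by
  unfold lin at h
  rw [Bool.and_eq_true, Bool.not_eq_true', Bool.eq_false_iff, Ne, Nat.beq_eq, Nat.beq_eq,
    v.hL] at h
  obtain ⟨l, hl, hm⟩ := M.blk v.c v.hc m h.1
  refine ⟨l, hl, fun x hx => ?_⟩
  have h1 := (hm (M.code x)).2 ⟨x, hx, rfl⟩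
  rw [← h.2, land_eq, Nat.testBit_and, Bool.and_eq_true] at h1
  exact h1.2

/-- data of a free cell -/
theorem Sta.free (h : M.Sta A B X O XL o1 o2 o3) {v : Cell TT nb} {w : V}
    (hw : M.code w = v.c) (hv : Nat.beq (Nat.land (Nat.lor X O) v.b) 0 = true) :
    w ∉ A ∧ w ∉ B := by
  have h1 := land_b hv
  rw [lor_eq, Nat.testBit_or, Bool.or_eq_false_iff, ← hw] at h1
  exact ⟨(h.hX.not w).1 h1.1, (h.hO.not w).1 h1.2⟩

theorem Sta.free_e (h : M.Sta A B X O XL o1 o2 o3) {v e : Cell TT nb} {w u : V}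
    (hw : M.code w = v.c) (hu : M.code u = e.c) (he : oke v e X O = true) :
    u ∉ A ∧ u ∉ B ∧ u ≠ w := by
  unfold oke at he
  have h1 := land_b he
  rw [lor_eq, lor_eq, Nat.testBit_or, Nat.testBit_or, Bool.or_eq_false_iff,
    Bool.or_eq_false_iff, b_bit, ← hu] at h1
  refine ⟨(h.hX.not u).1 h1.1.1, (h.hO.not u).1 h1.1.2, ?_⟩
  rintro rfl
  rw [← hw] at h1
  simp at h1

/-- a threat -/
theorem Sta.line_e (h : M.Sta A B X O XL o1 o2 o3) {v e : Cell TT nb} {w u : V} {m : Nat}
    (hw : M.code w = v.c) (hu : M.code u = e.c)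
    (hl : lin (full nb) v m (Nat.lor X (Nat.lor v.b e.b)) = true) :
    ∃ l, line l ∧ ∀ x ∈ l, x ≠ w → x ≠ u → x ∈ A := by
  obtain ⟨l, hl1, hl2⟩ := M.lin_spec hl
  refine ⟨l, hl1, fun x hx hxw hxu => ?_⟩
  have h1 := hl2 x hx
  rw [lor_eq, lor_eq, Nat.testBit_or, Nat.testBit_or, Bool.or_eq_true, Bool.or_eq_true, b_bit,
    b_bit, decide_eq_true_eq, decide_eq_true_eq] at h1
  rcases h1 with h1 | h1 | h1
  · exact (h.hX x).1 h1
  · exact absurd (M.inj (h1.symm.trans hw.symm)) hxw
  · exact absurd (M.inj (h1.symm.trans hu.symm)) hxu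

end Model

end Pool.Agent.TTT
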