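import Pool.Agent.TTT.Sound

set_option autoImplicit false
set_option linter.unusedSectionVars false

/-!
# Soundness of the checker, second part: threat sequences
-/

namespace Pool.Agent.TTT

variable {V : Type} [DecidableEq V]

namespace Model

variable {line : Finset V → Prop} {TT : Nat → Nat} {nb kk : Nat} {M : Model line TT nb kk}

/-- the through-property with an additional stone -/
theorem Sta.throughR {A B : Finset V} {X O XL o1 o2 o3 : Nat}
    (h : M.Sta A B X O XL o1 o2 o3) (v : Cell TT nb) (w : V)
    (hw : M.code w = v.c) (hv : Nat.beq (Nat.land o3 (Nat.lor XL v.L)) o3 = true)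
    {R : Finset V} {res Z : Nat} (hR : R.card ≤ 1)
    (hres : ∀ r ∈ R, res.testBit (M.code r) = false)
    (hZ : ∀ m, m < 2 ^ kk → ∀ j, Z.testBit (nb * m + j) = true → res.testBit j = true)
    (hz : ∀ r ∈ R, ∀ l, line l → r ∈ l → Disjoint l A → 2 ≤ (l ∩ B).card → ∀ x ∈ l,
      Z.testBit (M.pos l x) = true) :
    ∀ l, line l → Disjoint l A → 3 ≤ (l ∩ (B ∪ R)).card → w ∈ l := by
  intro l hl hd h3
  by_cases hRl : ∃ r ∈ R, r ∈ l
  · exfalso
    obtain ⟨r, hrR, hrl⟩ := hRl
    have h6 : 2 ≤ (l ∩ B).card := by
      have h7 : l ∩ (B ∪ R) ⊆ (l ∩ B) ∪ R := by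
        intro y hy
        rw [Finset.mem_inter, Finset.mem_union] at hy
        rw [Finset.mem_union, Finset.mem_inter]
        tauto
      have h8 := (Finset.card_le_card h7).trans (Finset.card_union_le _ _)
      omega
    have h9 := hZ _ (M.dir_lt l hl) _ (hz r hrR l hl hrl hd h6 r hrl)
    rw [hres r hrR] at h9
    exact absurd h9 (by simp)
  · push Not at hRl
    apply h.through v w hw hv l hl hd
    have h7 : l ∩ (B ∪ R) ⊆ l ∩ B := by
      intro y hy
      rw [Finset.mem_inter, Finset.mem_union] at hy
      rw [Finset.mem_inter]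
      have : y ∉ R := fun h => hRl y h hy.1
      tauto
    exact h3.trans (Finset.card_le_card h7)

theorem Sta.disR {A B : Finset V} {X O XL o1 o2 o3 : Nat}
    (h : M.Sta A B X O XL o1 o2 o3) {R : Finset V} (hR : ∀ r ∈ R, r ∉ A) : Disjoint A (B ∪ R) := by
  rw [Finset.disjoint_union_right]
  exact ⟨h.dis, Finset.disjoint_right.2 hR⟩

variable (M)

/-- soundness of the threat sequences -/
theorem tss_sound (s : S TT nb) : ∀ (X O XL o1 o2 o3 Z C : Nat),
    tss nb kk (full nb) s X O XL o1 o2 o3 Z C ≠ 0 →
    (∀ i, C.testBit i = true → (tss nb kk (full nb) s X O XL o1 o2 o3 Z C).testBit i = true) ∧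
    (∀ m, m < 2 ^ kk → ∀ j, Z.testBit (nb * m + j) = true →
      (tss nb kk (full nb) s X O XL o1 o2 o3 Z C).testBit j = true) ∧
    ∀ A B R : Finset V, M.Sta A B X O XL o1 o2 o3 → R.card ≤ 1 →
      (∀ r ∈ R, r ∉ A ∧ r ∉ B ∧
        (tss nb kk (full nb) s X O XL o1 o2 o3 Z C).testBit (M.code r) = false) →
      (∀ r ∈ R, ∀ l, line l → r ∈ l → Disjoint l A → 2 ≤ (l ∩ B).card → ∀ x ∈ l,
        Z.testBit (M.pos l x) = true) →
      FirstWins line A (B ∪ R) := by
  induction s with
  | w v m =>
    intro X O XL o1 o2 o3 Z C h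
    rw [tss] at h ⊢
    by_cases c : (Nat.beq (Nat.land (Nat.lor X O) v.b) 0 &&
        lin (full nb) v m (Nat.lor X v.b)) = true
    · rw [c] at h ⊢
      simp only [cond_true] at h ⊢
      rw [Bool.and_eq_true] at c
      refine ⟨?_, ?_, ?_⟩
      · intro i hi
        simp only [lor_eq, Nat.testBit_or, hi, Bool.true_or]
      · intro m hm j hj
        have := fold_bit nb kk Z m j hm hj
        simp only [lor_eq, Nat.testBit_or, this, Bool.or_true]
      · intro A B R hS hR hR2 _
        obtain ⟨w, hw⟩ := M.surj v.c v.hc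
        obtain ⟨hwA, hwB⟩ := hS.free hw c.1
        have hwR : w ∉ R := by
          intro hx
          have h1 := (hR2 w hx).2.2
          simp only [lor_eq, Nat.testBit_or, b_bit, hw, decide_true, Bool.or_true,
            Bool.true_or] at h1
          exact absurd h1 (by simp)
        obtain ⟨l, hl1, hl2⟩ := M.lin_spec c.2
        refine FirstWins.win A (B ∪ R) w hwA ?_ ⟨l, hl1, ?_⟩
        · rw [Finset.mem_union, not_or]; exact ⟨hwB, hwR⟩
        · intro x hx
          have h1 := hl2 x hx
          rw [lor_eq, Nat.testBit_or, Bool.or_eq_true, b_bit, decide_eq_true_eq] at h1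
          rw [Finset.mem_insert]
          rcases h1 with h1 | h1
          · exact Or.inr ((hS.hX x).1 h1)
          · exact Or.inl (M.inj (h1.symm.trans hw.symm))
    · rw [Bool.not_eq_true] at c
      rw [c] at h
      exact absurd rfl h
  | d v e e' m m' =>
    intro X O XL o1 o2 o3 Z C h
    rw [tss] at h ⊢
    by_cases c : (okv v X O XL o3 && (oke v e X O && (oke v e' X O &&
        (Nat.beq (Nat.land e.b e'.b) 0 &&
      (lin (full nb) v m (Nat.lor X (Nat.lor v.b e.b)) &&
        lin (full nb) v m' (Nat.lor X (Nat.lor v.b e'.b))))))) = true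
    · rw [c] at h ⊢
      simp only [cond_true] at h ⊢
      simp only [Bool.and_eq_true, okv] at c
      obtain ⟨⟨c1, c2⟩, c3, c4, c5, c6, c7⟩ := c
      have hZ : ∀ m, m < 2 ^ kk → ∀ j, Z.testBit (nb * m + j) = true →
          (Nat.lor (Nat.lor (Nat.lor C v.b) (Nat.lor e.b e'.b)) (fold nb kk Z)).testBit j =
            true := by
        intro m hm j hj
        have := fold_bit nb kk Z m j hm hj
        simp only [lor_eq, Nat.testBit_or, this, Bool.or_true]
      refine ⟨?_, hZ, ?_⟩
      · intro i hi
        simp only [lor_eq, Nat.testBit_or, hi, Bool.true_or]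
      · intro A B R hS hR hR2 hz
        obtain ⟨w, hw⟩ := M.surj v.c v.hc
        obtain ⟨u, hu⟩ := M.surj e.c e.hc
        obtain ⟨u', hu'⟩ := M.surj e'.c e'.hc
        obtain ⟨hwA, hwB⟩ := hS.free hw c1
        obtain ⟨huA, huB, huw⟩ := hS.free_e hw hu c3
        obtain ⟨huA', huB', huw'⟩ := hS.free_e hw hu' c4
        obtain ⟨l, hl1, hl2⟩ := hS.line_e hw hu c6
        obtain ⟨l', hl1', hl2'⟩ := hS.line_e hw hu' c7
        have huu : u ≠ u' := by
          rintro rfl
          have h1 := land_b c5
          rw [b_bit, ← hu, ← hu'] at h1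
          simp at h1
        have hwR : w ∉ R := by
          intro hx
          have h1 := (hR2 w hx).2.2
          simp only [lor_eq, Nat.testBit_or, b_bit, hw, decide_true, Bool.or_true,
            Bool.true_or] at h1
          exact absurd h1 (by simp)
        have huR : u ∉ R := by
          intro hx
          have h1 := (hR2 u hx).2.2
          simp only [lor_eq, Nat.testBit_or, b_bit, hu, decide_true, Bool.or_true,
            Bool.true_or] at h1
          exact absurd h1 (by simp)
        have huR' : u' ∉ R := by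
          intro hx
          have h1 := (hR2 u' hx).2.2
          simp only [lor_eq, Nat.testBit_or, b_bit, hu', decide_true, Bool.or_true,
            Bool.true_or] at h1
          exact absurd h1 (by simp)
        have hthr := hS.throughR v w hw c2 hR (fun r hr => (hR2 r hr).2.2) hZ hz
        refine double_step M.card hl1 hl1' huw huw' huu hl2 hl2' hwA ?_ huA ?_ huA' ?_
          (hS.disR fun r hr => (hR2 r hr).1) hthr
        · rw [Finset.mem_union, not_or]; exact ⟨hwB, hwR⟩
        · rw [Finset.mem_union, not_or]; exact ⟨huB, huR⟩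
        · rw [Finset.mem_union, not_or]; exact ⟨huB', huR'⟩
    · rw [Bool.not_eq_true] at c
      rw [c] at h
      exact absurd rfl h
  | s v e m r ih =>
    intro X O XL o1 o2 o3 Z C h
    rw [tss] at h ⊢
    by_cases c : (okv v X O XL o3 && (oke v e X O &&
        lin (full nb) v m (Nat.lor X (Nat.lor v.b e.b)))) = true
    · rw [c] at h ⊢
      simp only [cond_true] at h ⊢
      simp only [Bool.and_eq_true, okv] at c
      obtain ⟨⟨c1, c2⟩, c3, c4⟩ := c
      obtain ⟨i1, i2, i3⟩ := ih _ _ _ _ _ _ _ _ h
      have hZ : ∀ m, m < 2 ^ kk → ∀ j, Z.testBit (nb * m + j) = true → _ :=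
        fun m hm j hj => i2 m hm j (by
          rw [lor_eq Z, Nat.testBit_or, hj, Bool.true_or])
      refine ⟨?_, hZ, ?_⟩
      · intro i hi
        apply i1
        rw [lor_eq C, Nat.testBit_or, hi, Bool.true_or]
      · intro A B R hS hR hR2 hz
        obtain ⟨w, hw⟩ := M.surj v.c v.hc
        obtain ⟨u, hu⟩ := M.surj e.c e.hc
        obtain ⟨hwA, hwB⟩ := hS.free hw c1
        obtain ⟨huA, huB, huw⟩ := hS.free_e hw hu c3
        obtain ⟨l, hl1, hl2⟩ := hS.line_e hw hu c4
        have hwR : w ∉ R := by
          intro hx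
          have h1 := (hR2 w hx).2.2
          rw [i1 (M.code w) (by
            simp only [lor_eq, Nat.testBit_or, b_bit, hw, decide_true, Bool.or_true,
              Bool.true_or])] at h1
          exact absurd h1 (by simp)
        have huR : u ∉ R := by
          intro hx
          have h1 := (hR2 u hx).2.2
          rw [i1 (M.code u) (by
            simp only [lor_eq, Nat.testBit_or, b_bit, hu, decide_true, Bool.or_true])] at h1
          exact absurd h1 (by simp)
        have hthr := hS.throughR v w hw c2 hR (fun r hr => (hR2 r hr).2.2) hZ hz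
        have hS' := (hS.addX v w hw hwB).addO e u hu (by
          rw [Finset.mem_insert, not_or]; exact ⟨huw, huA⟩)
        have key := i3 (insert w A) (insert u B) R hS' hR ?_ ?_
        · rw [Finset.insert_union] at key
          refine threat_step M.card hl1 huw hl2 hwA ?_ huA ?_
            (hS.disR fun r hr => (hR2 r hr).1) hthr key
          · rw [Finset.mem_union, not_or]; exact ⟨hwB, hwR⟩
          · rw [Finset.mem_union, not_or]; exact ⟨huB, huR⟩
        · intro r hr
          refine ⟨?_, ?_, (hR2 r hr).2.2⟩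
          · rw [Finset.mem_insert, not_or]
            exact ⟨fun h => hwR (h ▸ hr), (hR2 r hr).1⟩
          · rw [Finset.mem_insert, not_or]
            exact ⟨fun h => huR (h ▸ hr), (hR2 r hr).2.1⟩
        · intro r _ l hl _ hd h2 x hx
          rw [lor_eq Z, Nat.testBit_or, hS'.zone l hl x hx hd h2, Bool.or_true]
    · rw [Bool.not_eq_true] at c
      rw [c] at h
      exact absurd rfl h

theorem inter_le {full X O XL o1 o2 o3 Z : Nat} (ss : List (S TT nb)) (i : Nat) :
    (inter nb kk full X O XL o1 o2 o3 Z ss).testBit i = true → full.testBit i = true := by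
  induction ss with
  | nil => rw [inter]; exact id
  | cons c ss ih =>
    rw [inter]
    cases h : Nat.beq (tss nb kk full c X O XL o1 o2 o3 Z 0) 0
    · simp only [cond_false, land_eq, Nat.testBit_and, Bool.and_eq_true]
      exact fun h => ih h.2
    · simpa only [cond_true] using ih

theorem inter_not {full X O XL o1 o2 o3 Z : Nat} (ss : List (S TT nb)) (i : Nat)
    (hi : full.testBit i = true) :
    (inter nb kk full X O XL o1 o2 o3 Z ss).testBit i = false →
      ∃ c : S TT nb, tss nb kk full c X O XL o1 o2 o3 Z 0 ≠ 0 ∧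
        (tss nb kk full c X O XL o1 o2 o3 Z 0).testBit i = false := by
  induction ss with
  | nil => rw [inter, hi]; simp
  | cons c ss ih =>
    rw [inter]
    cases h : Nat.beq (tss nb kk full c X O XL o1 o2 o3 Z 0) 0
    · simp only [cond_false, land_eq, Nat.testBit_and, Bool.and_eq_false_iff]
      rintro (h1 | h1)
      · refine ⟨c, ?_, h1⟩
        rw [Bool.eq_false_iff, Ne, Nat.beq_eq] at h
        exact h
      · exact ih h1
    · simpa only [cond_true] using ih

/-- soundness of the checker -/
theorem chk_sound : ∀ (t : T TT nb) (p : Bool) (X O XL o1 o2 o3 U : Nat),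
    chk nb kk (full nb) t p X O XL o1 o2 o3 U = true →
    ∀ A B : Finset V, M.Sta A B X O XL o1 o2 o3 →
      (p = true → FirstWins line A B) ∧
      (p = false → ∀ w, w ∉ A → w ∉ B → U.testBit (M.code w) = true →
        FirstWins line A (insert w B)) := by
  intro t
  induction t with
  | l s =>
    intro p X O XL o1 o2 o3 U h A B hS
    rw [chk, Bool.and_eq_true, Bool.not_eq_true', Bool.eq_false_iff, Ne, Nat.beq_eq] at h
    refine ⟨?_, ?_⟩
    · intro _
      have h1 := (M.tss_sound s _ _ _ _ _ _ _ _ h.2).2.2 A B ∅ hS (by simp) (by simp) (by simp)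
      rwa [Finset.union_empty] at h1
    · intro hp
      rw [hp] at h
      exact absurd h.1 (by simp)
  | f v e m t ih =>
    intro p X O XL o1 o2 o3 U h A B hS
    rw [chk] at h
    simp only [Bool.and_eq_true, okv] at h
    obtain ⟨hp, ⟨c1, c2⟩, c3, c4, c5⟩ := h
    refine ⟨?_, fun hp' => by rw [hp'] at hp; exact absurd hp (by simp)⟩
    intro _
    obtain ⟨w, hw⟩ := M.surj v.c v.hc
    obtain ⟨u, hu⟩ := M.surj e.c e.hc
    obtain ⟨hwA, hwB⟩ := hS.free hw c1
    obtain ⟨huA, huB, huw⟩ := hS.free_e hw hu c3
    obtain ⟨l, hl1, hl2⟩ := hS.line_e hw hu c4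
    have hS' := (hS.addX v w hw hwB).addO e u hu (by
      rw [Finset.mem_insert, not_or]; exact ⟨huw, huA⟩)
    exact threat_step M.card hl1 huw hl2 hwA hwB huA huB hS.dis (hS.through v w hw c2)
      ((ih true _ _ _ _ _ _ _ c5 _ _ hS').1 rfl)
  | q v ss ch ih =>
    intro p X O XL o1 o2 o3 U0 h A B hS
    rw [chk] at h
    simp only [Bool.and_eq_true, okv] at h
    obtain ⟨hp, ⟨c1, c2⟩, d2, d3⟩ := h
    refine ⟨?_, fun hp' => by rw [hp'] at hp; exact absurd hp (by simp)⟩
    intro _
    obtain ⟨x, hxv⟩ := M.surj v.c v.hc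
    obtain ⟨hxA, hxB⟩ := hS.free hxv c1
    have hthr := hS.through v x hxv c2
    have hS' := hS.addX v x hxv hxB
    set U := inter nb kk (full nb) (Nat.lor X v.b) O (Nat.lor XL v.L) o1 o2 o3
      (Nat.xor o2 (Nat.land o2 (Nat.lor XL v.L))) ss with hUdef
    have hsub : ∀ i, (Nat.xor U (Nat.land U (Nat.lor (Nat.lor X v.b) O))).testBit i =
        (U.testBit i && !((Nat.lor X v.b).testBit i) && !(O.testBit i)) := by
      intro i
      rw [xor_eq, land_eq, lor_eq (Nat.lor X v.b) O, Nat.testBit_xor,
        Nat.testBit_and, Nat.testBit_or]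
      cases U.testBit i <;>
        cases (Nat.lor X v.b).testBit i <;> cases O.testBit i <;> rfl
    -- a threat sequence which avoids a cell
    have hw : ∀ i, i < nb → U.testBit i = false →
        ∀ R : Finset V, R.card ≤ 1 → (∀ r ∈ R, r ∉ insert x A ∧ r ∉ B ∧ M.code r = i) →
          FirstWins line (insert x A) (B ∪ R) := by
      intro i hi hU R hR hRi
      obtain ⟨s, hs1, hs2⟩ := inter_not ss i (by rw [full_bit]; simpa using hi) hU
      refine (M.tss_sound s _ _ _ _ _ _ _ _ hs1).2.2 (insert x A) B R hS' hR ?_ ?_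
      · intro r hr
        obtain ⟨a1, a2, a3⟩ := hRi r hr
        exact ⟨a1, a2, by rw [a3]; exact hs2⟩
      · intro r _ l hl _ hdl h2 y hy
        exact hS'.zone l hl y hy hdl h2
    refine FirstWins.move A B x hxA hxB ?_ ?_ ?_
    · -- a free cell
      rw [Bool.or_eq_true, Bool.not_eq_true', Bool.not_eq_true', Bool.eq_false_iff,
        Bool.eq_false_iff, Ne, Ne, Nat.beq_eq, Nat.beq_eq] at d2
      rcases d2 with h1 | h1
      · obtain ⟨i, hi⟩ := Nat.exists_testBit_of_ne_zero h1
        rw [hsub, Bool.and_eq_true, Bool.and_eq_true, Bool.not_eq_true', Bool.not_eq_true'] at hi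
        obtain ⟨⟨b1, b2⟩, b3⟩ := hi
        have b4 := inter_le ss i b1
        rw [full_bit, decide_eq_true_eq] at b4
        obtain ⟨w, hwi⟩ := M.surj i b4
        rw [← hwi] at b2 b3
        exact ⟨w, (hS'.hX.not w).1 b2, (hS'.hO.not w).1 b3⟩
      · have h2 : ∃ i, i < nb ∧ U.testBit i = false := by
          by_contra hc
          push Not at hc
          apply h1
          apply Nat.eq_of_testBit_eq
          intro i
          by_cases hi : i < nb
          · rw [full_bit, decide_eq_true hi]
            exact (Bool.not_eq_false _).mp (hc i hi)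
          · have h4 : (full nb).testBit i = false := by
              rw [full_bit, decide_eq_false hi]
            rw [h4, Bool.eq_false_iff]
            intro h3
            have h5 := inter_le ss i h3
            rw [h4] at h5
            exact absurd h5 (by simp)
        obtain ⟨i, hi, hi2⟩ := h2
        have h3 := hw i hi hi2 ∅ (by simp) (by simp)
        rw [Finset.union_empty] at h3
        exact FirstWins.exists_free h3
    · intro w hwA _
      exact no_complete M.card hxB hS.dis hthr hwA
    · intro w hwA hwB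
      cases hU : U.testBit (M.code w)
      · have h3 := hw (M.code w) (M.lt w) hU {w} (by simp) (by
          intro r hr
          rw [Finset.mem_singleton] at hr
          rw [hr]
          exact ⟨hwA, hwB, rfl⟩)
        rw [Finset.union_comm] at h3
        exact h3
      · refine (ih false _ _ _ _ _ _ _ d3 (insert x A) B hS').2 rfl w hwA hwB ?_
        rw [hsub, hU, (hS'.hX.not w).2 hwA, (hS'.hO.not w).2 hwB]
        rfl
  | c w0 t r iht ihr =>
    intro p X O XL o1 o2 o3 U h A B hS
    rw [chk] at h
    simp only [Bool.and_eq_true] at h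
    obtain ⟨hp, d2, d3⟩ := h
    rw [Bool.not_eq_true'] at hp
    refine ⟨fun hp' => by rw [hp'] at hp; exact absurd hp (by simp), ?_⟩
    intro _ w hwA hwB hm
    by_cases hwa : M.code w = w0.c
    · exact (iht true _ _ _ _ _ _ _ d2 A (insert w B) (hS.addO w0 w hwa hwA)).1 rfl
    · refine (ihr false _ _ _ _ _ _ _ d3 A B hS).2 rfl w hwA hwB ?_
      rw [xor_eq, land_eq, Nat.testBit_xor, Nat.testBit_and, b_bit, hm,
        decide_eq_false (fun h => hwa h.symm)]
      rfl
  | n =>
    intro p X O XL o1 o2 o3 U h A B hS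
    rw [chk, Bool.and_eq_true, Bool.not_eq_true', Nat.beq_eq] at h
    refine ⟨fun hp' => by rw [hp'] at h; exact absurd h.1 (by simp), ?_⟩
    intro _ w _ _ hm
    rw [h.2] at hm
    simp at hm

end Model

end Pool.Agent.TTT
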