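import Pool.Agent.TTT.Board
import Pool.Agent.TTT.Cells

set_option autoImplicit false

/-!
# Symmetries
-/

namespace Pool.Agent.TTT

/-- transport along a bijection which preserves lines -/
theorem FirstWins.map {V W : Type} [DecidableEq V] [DecidableEq W] {line : Finset V → Prop}
    {line' : Finset W → Prop} (e : V ≃ W)
    (h : ∀ l, line l → line' (l.map e.toEmbedding))
    (h' : ∀ l, line' l → line (l.map e.symm.toEmbedding)) {A B : Finset V}
    (hw : FirstWins line A B) : FirstWins line' (A.map e.toEmbedding) (B.map e.toEmbedding) := by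
  have hm : ∀ (s : Finset V) (w : W), w ∈ s.map e.toEmbedding ↔ e.symm w ∈ s := by
    intro s w
    rw [Finset.mem_map_equiv]
  have hi : ∀ (s : Finset V) (w : W),
      insert w (s.map e.toEmbedding) = (insert (e.symm w) s).map e.toEmbedding := by
    intro s w
    ext y
    rw [Finset.mem_insert, hm, hm, Finset.mem_insert]
    constructor
    · rintro (h | h)
      · exact Or.inl (by rw [h])
      · exact Or.inr h
    · rintro (h | h)
      · exact Or.inl (e.symm.injective h)
      · exact Or.inr h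
  induction hw with
  | win A B v hX hO hl =>
    obtain ⟨l, hl, hsub⟩ := hl
    refine FirstWins.win _ _ (e v) ?_ ?_ ⟨l.map e.toEmbedding, h l hl, ?_⟩
    · rw [hm, e.symm_apply_apply]; exact hX
    · rw [hm, e.symm_apply_apply]; exact hO
    · rw [hi, e.symm_apply_apply]
      exact Finset.map_subset_map.2 hsub
  | move A B v hX hO hfree hno _ ih =>
    refine FirstWins.move _ _ (e v) ?_ ?_ ?_ ?_ ?_
    · rw [hm, e.symm_apply_apply]; exact hX
    · rw [hm, e.symm_apply_apply]; exact hO
    · obtain ⟨w, hw1, hw2⟩ := hfree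
      refine ⟨e w, ?_, ?_⟩
      · rw [hi, e.symm_apply_apply, hm, e.symm_apply_apply]; exact hw1
      · rw [hm, e.symm_apply_apply]; exact hw2
    · intro w hw1 hw2
      rw [hi, e.symm_apply_apply, hm] at hw1
      rw [hm] at hw2
      rintro ⟨l, hl, hsub⟩
      apply hno _ hw1 hw2
      refine ⟨l.map e.symm.toEmbedding, h' l hl, ?_⟩
      intro y hy
      rw [Finset.mem_map_equiv, Equiv.symm_symm] at hy
      have h1 := hsub hy
      rw [hi, hm, e.symm_apply_apply] at h1
      exact h1
    · intro w hw1 hw2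
      rw [hi, e.symm_apply_apply, hm] at hw1
      rw [hm] at hw2
      rw [hi, hi, e.symm_apply_apply]
      exact ih _ hw1 hw2

section
variable {n d : ℕ}

/-- permutation of the coordinates -/
def permE (σ : Equiv.Perm (Fin d)) : (Fin d → Fin n) ≃ (Fin d → Fin n) where
  toFun x := fun i => x (σ i)
  invFun x := fun i => x (σ.symm i)
  left_inv x := by funext i; simp
  right_inv x := by funext i; simp

/-- a permutation of the values, applied to all coordinates -/
def valE (s : Equiv.Perm (Fin n)) : (Fin d → Fin n) ≃ (Fin d → Fin n) where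
  toFun x := fun i => s (x i)
  invFun x := fun i => s.symm (x i)
  left_inv x := by funext i; simp
  right_inv x := by funext i; simp

theorem line_permE (σ : Equiv.Perm (Fin d)) (l : Finset (Fin d → Fin n)) (hl : IsLine n d l) :
    IsLine n d (l.map (permE σ).toEmbedding) := by
  obtain ⟨x, h1, ⟨i, hi⟩, rfl⟩ := hl
  refine ⟨fun t => permE σ (x t), fun i => h1 (σ i), ⟨σ.symm i, ?_⟩, ?_⟩
  · rintro ⟨a, ha⟩
    apply hi
    refine ⟨a, fun t => ?_⟩
    have := ha t
    simpa [permE] using this
  · rw [Finset.map_eq_image, Finset.image_image]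
    rfl

theorem line_valE (s : Equiv.Perm (Fin n)) (hs : ∀ a, s (Fin.rev a) = Fin.rev (s a))
    (l : Finset (Fin d → Fin n)) (hl : IsLine n d l) :
    IsLine n d (l.map (valE s).toEmbedding) := by
  obtain ⟨x, h1, ⟨i, hi⟩, rfl⟩ := hl
  refine ⟨fun t => valE s (x (s.symm t)), ?_, ⟨i, ?_⟩, ?_⟩
  · intro j
    rcases h1 j with ⟨a, ha⟩ | h | h
    · exact Or.inl ⟨s a, fun t => by show s (x (s.symm t) j) = s a; rw [ha]⟩
    · exact Or.inr (Or.inl fun t => by show s (x (s.symm t) j) = t; rw [h]; simp)
    · exact Or.inr (Or.inr fun t => by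
        show s (x (s.symm t) j) = Fin.rev t
        rw [h, hs]; simp)
  · rintro ⟨a, ha⟩
    apply hi
    refine ⟨s.symm a, fun t => ?_⟩
    have := ha (s t)
    change s (x (s.symm (s t)) i) = a at this
    rw [Equiv.symm_apply_apply] at this
    rw [← this, Equiv.symm_apply_apply]
  · rw [Finset.map_eq_image, Finset.image_image]
    ext y
    simp only [Finset.mem_image, Finset.mem_univ, true_and]
    constructor
    · rintro ⟨t, rfl⟩
      exact ⟨s t, by simp⟩
    · rintro ⟨t, rfl⟩
      exact ⟨s.symm t, rfl⟩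

theorem fw_permE (σ : Equiv.Perm (Fin d)) {A B : Finset (Fin d → Fin n)}
    (h : FirstWins (IsLine n d) A B) :
    FirstWins (IsLine n d) (A.map (permE σ).toEmbedding) (B.map (permE σ).toEmbedding) :=
  h.map (permE σ) (line_permE σ) (line_permE σ.symm)

theorem fw_valE (s : Equiv.Perm (Fin n)) (hs : ∀ a, s (Fin.rev a) = Fin.rev (s a))
    {A B : Finset (Fin d → Fin n)} (h : FirstWins (IsLine n d) A B) :
    FirstWins (IsLine n d) (A.map (valE s).toEmbedding) (B.map (valE s).toEmbedding) := by
  refine h.map (valE s) (line_valE s hs) (line_valE s.symm ?_)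
  intro a
  apply s.injective
  rw [hs]; simp

end

/-! ### The positions after two moves of each player -/

def m1 : Fin 4 → Fin 4 := fun _ => 0
def m2 : Fin 4 → Fin 4 := fun _ => 1

def pA (τ : Fin 4 → Nat) : Fin 4 → Fin 4 := fun i => ⟨τ i / 4 % 4, Nat.mod_lt _ (by norm_num)⟩
def pB (τ : Fin 4 → Nat) : Fin 4 → Fin 4 := fun i => ⟨τ i % 4, Nat.mod_lt _ (by norm_num)⟩

def Good (τ : Fin 4 → Nat) : Prop := FirstWins (IsLine 4 4) {m1, m2} {pA τ, pB τ}

theorem good_perm (σ : Equiv.Perm (Fin 4)) (τ : Fin 4 → Nat) (h : Good τ) :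
    Good (fun i => τ (σ i)) := by
  have h1 := fw_permE σ h
  rw [Finset.map_insert, Finset.map_singleton, Finset.map_insert, Finset.map_singleton] at h1
  exact h1

def s01 : Equiv.Perm (Fin 4) := Equiv.swap 0 1 * Equiv.swap 2 3
def s12 : Equiv.Perm (Fin 4) := Equiv.swap 1 2

theorem s01_rev : ∀ a, s01 (Fin.rev a) = Fin.rev (s01 a) := by decide
theorem s12_rev : ∀ a, s12 (Fin.rev a) = Fin.rev (s12 a) := by decide

/-- the exchange `0 ↔ 1, 2 ↔ 3` on pairs -/
def sw (v : Nat) : Nat := Nat.xor v 5
/-- the exchange of the two moves -/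
def ex (v : Nat) : Nat := 4 * (v % 4) + v / 4

theorem sw_div : ∀ v, v < 16 → ∀ h, s01 ⟨v / 4 % 4, h⟩ = ⟨sw v / 4 % 4, Nat.mod_lt _ (by norm_num)⟩ := by
  decide
theorem sw_mod : ∀ v, v < 16 → ∀ h, s01 ⟨v % 4, h⟩ = ⟨sw v % 4, Nat.mod_lt _ (by norm_num)⟩ := by
  decide

theorem good_sw (τ : Fin 4 → Nat) (hτ : ∀ i, τ i < 16) (h : Good τ) :
    Good (fun i => sw (τ i)) := by
  have h1 := fw_valE s01 s01_rev h
  rw [Finset.map_insert, Finset.map_singleton, Finset.map_insert, Finset.map_singleton] at h1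
  have e1 : (valE s01).toEmbedding m1 = m2 := by
    funext i; show s01 0 = 1; decide
  have e2 : (valE s01).toEmbedding m2 = m1 := by
    funext i; show s01 1 = 0; decide
  have e3 : (valE s01).toEmbedding (pA τ) = pA (fun i => sw (τ i)) := by
    funext i; exact sw_div (τ i) (hτ i) _
  have e4 : (valE s01).toEmbedding (pB τ) = pB (fun i => sw (τ i)) := by
    funext i; exact sw_mod (τ i) (hτ i) _
  rw [e1, e2, e3, e4, Finset.pair_comm m2 m1] at h1
  exact h1

theorem ex_div : ∀ v, v < 16 → ex v / 4 % 4 = v % 4 := by decide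
theorem ex_mod : ∀ v, v < 16 → ex v % 4 = v / 4 % 4 := by decide

theorem good_ex (τ : Fin 4 → Nat) (hτ : ∀ i, τ i < 16) (h : Good τ) :
    Good (fun i => ex (τ i)) := by
  unfold Good at h ⊢
  have e3 : pA (fun i => ex (τ i)) = pB τ := by
    funext i
    apply Fin.ext
    exact ex_div _ (hτ i)
  have e4 : pB (fun i => ex (τ i)) = pA τ := by
    funext i
    apply Fin.ext
    exact ex_mod _ (hτ i)
  rw [e3, e4, Finset.pair_comm (pB τ)]
  exact h

def P (a b c d : Nat) : Prop := Good ![a, b, c, d]

theorem P01 {a b c d : Nat} : P a b c d ↔ P b a c d := by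
  have key : ∀ a b c d : Nat, P a b c d → P b a c d := by
    intro a b c d h
    have h1 := good_perm (Equiv.swap 0 1) _ h
    have e : (fun i => (![a, b, c, d] : Fin 4 → Nat) (Equiv.swap 0 1 i)) = ![b, a, c, d] := by
      funext i; fin_cases i <;> rfl
    rw [e] at h1
    exact h1
  exact ⟨key _ _ _ _, key _ _ _ _⟩

theorem P12 {a b c d : Nat} : P a b c d ↔ P a c b d := by
  have key : ∀ a b c d : Nat, P a b c d → P a c b d := by
    intro a b c d h
    have h1 := good_perm (Equiv.swap 1 2) _ h
    have e : (fun i => (![a, b, c, d] : Fin 4 → Nat) (Equiv.swap 1 2 i)) = ![a, c, b, d] := by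
      funext i; fin_cases i <;> rfl
    rw [e] at h1
    exact h1
  exact ⟨key _ _ _ _, key _ _ _ _⟩

theorem P23 {a b c d : Nat} : P a b c d ↔ P a b d c := by
  have key : ∀ a b c d : Nat, P a b c d → P a b d c := by
    intro a b c d h
    have h1 := good_perm (Equiv.swap 2 3) _ h
    have e : (fun i => (![a, b, c, d] : Fin 4 → Nat) (Equiv.swap 2 3 i)) = ![a, b, d, c] := by
      funext i; fin_cases i <;> rfl
    rw [e] at h1
    exact h1
  exact ⟨key _ _ _ _, key _ _ _ _⟩

/-- index of a 4-tuple -/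
def idx (a b c d : Nat) : Nat := a + 16 * b + 256 * c + 4096 * d

def PI (k : Nat) : Prop := P (k % 16) (k / 16 % 16) (k / 256 % 16) (k / 4096 % 16)

def so01 (k : Nat → Nat → Nat → Nat → Nat) (a b c d : Nat) : Nat :=
  bif Nat.ble a b then k a b c d else k b a c d
def so12 (k : Nat → Nat → Nat → Nat → Nat) (a b c d : Nat) : Nat :=
  bif Nat.ble b c then k a b c d else k a c b d
def so23 (k : Nat → Nat → Nat → Nat → Nat) (a b c d : Nat) : Nat :=
  bif Nat.ble c d then k a b c d else k a b d c

/-- index of the sorted 4-tuple -/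
def sidx (a b c d : Nat) : Nat :=
  so01 (so23 (so12 (so01 (so23 (so12 idx))))) a b c d

def Inv (k : Nat → Nat → Nat → Nat → Nat) : Prop :=
  ∀ a b c d, a < 16 → b < 16 → c < 16 → d < 16 → (PI (k a b c d) ↔ P a b c d)

theorem inv_idx : Inv idx := by
  intro a b c d ha hb hc hd
  unfold PI idx
  have e0 : (a + 16 * b + 256 * c + 4096 * d) % 16 = a := by omega
  have e1 : (a + 16 * b + 256 * c + 4096 * d) / 16 % 16 = b := by omega
  have e2 : (a + 16 * b + 256 * c + 4096 * d) / 256 % 16 = c := by omega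
  have e3 : (a + 16 * b + 256 * c + 4096 * d) / 4096 % 16 = d := by omega
  rw [e0, e1, e2, e3]

theorem inv_so01 {k : Nat → Nat → Nat → Nat → Nat} (h : Inv k) : Inv (so01 k) := by
  intro a b c d ha hb hc hd
  unfold so01
  cases Nat.ble a b
  · rw [cond_false, h b a c d hb ha hc hd]; exact P01
  · rw [cond_true, h a b c d ha hb hc hd]

theorem inv_so12 {k : Nat → Nat → Nat → Nat → Nat} (h : Inv k) : Inv (so12 k) := by
  intro a b c d ha hb hc hd
  unfold so12
  cases Nat.ble b c
  · rw [cond_false, h a c b d ha hc hb hd]; exact P12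
  · rw [cond_true, h a b c d ha hb hc hd]

theorem inv_so23 {k : Nat → Nat → Nat → Nat → Nat} (h : Inv k) : Inv (so23 k) := by
  intro a b c d ha hb hc hd
  unfold so23
  cases Nat.ble c d
  · rw [cond_false, h a b d c ha hb hd hc]; exact P23
  · rw [cond_true, h a b c d ha hb hc hd]

theorem inv_sidx : Inv sidx :=
  inv_so01 (inv_so23 (inv_so12 (inv_so01 (inv_so23 (inv_so12 inv_idx)))))

/-! ### Roots -/

/-- type of the coordinate `i` in the pair of cells `a`, `b` -/
def typ (a b i : Nat) : Nat := 4 * digit a i + digit b i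

theorem typ_lt (a b i : Nat) : typ a b i < 16 := by
  unfold typ digit
  have h1 := Nat.mod_lt (a / 4 ^ i) (show 0 < 4 by norm_num)
  have h2 := Nat.mod_lt (b / 4 ^ i) (show 0 < 4 by norm_num)
  omega

def rootOK (a b : Cell TT 256) (t : T TT 256) : Bool :=
  (!(Nat.beq a.c 0) && (!(Nat.beq b.c 0) && (!(Nat.beq a.c 85) && (!(Nat.beq b.c 85) &&
    !(Nat.beq a.c b.c))))) &&
  chk 256 4 (full 256) t true (Nat.lor k0.b k85.b) (Nat.lor a.b b.b) (Nat.lor k0.L k85.L)
    (Nat.lor a.L b.L) (Nat.land a.L b.L) 0 0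

theorem rep_pair (a b : Cell TT 256) :
    model.Rep (Nat.lor a.b b.b) {ofCode a.c, ofCode b.c} := by
  intro w
  rw [lor_eq, Nat.testBit_or, Model.b_bit, Model.b_bit, Bool.or_eq_true, decide_eq_true_eq,
    decide_eq_true_eq, Finset.mem_insert, Finset.mem_singleton]
  have key : ∀ c, c < 256 → (c = model.code w ↔ w = ofCode c) := by
    intro c hc
    constructor
    · intro h
      apply code_inj
      rw [code_ofCode c hc]
      exact h.symm
    · intro h
      rw [h]
      exact (code_ofCode c hc).symm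
  rw [key a.c a.hc, key b.c b.hc]

theorem sta_pair {a b a' b' : Cell TT 256}
    (hd : Disjoint ({ofCode a.c, ofCode b.c} : Finset (Fin 4 → Fin 4)) {ofCode a'.c, ofCode b'.c}) :
    model.Sta {ofCode a.c, ofCode b.c} {ofCode a'.c, ofCode b'.c} (Nat.lor a.b b.b)
      (Nat.lor a'.b b'.b) (Nat.lor a.L b.L) (Nat.lor a'.L b'.L) (Nat.land a'.L b'.L) 0 where
  dis := hd
  hX := rep_pair a b
  hO := rep_pair a' b'
  hXL l hl x hx hb hd := by
    rw [lor_eq, Nat.testBit_or, Bool.or_eq_true] at hb
    rcases hb with hb | hb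
    · have h1 := (model.L_bit a (ofCode a.c) (code_ofCode a.c a.hc) l hl x hx).1 hb
      exact (Finset.disjoint_left.1 hd) h1 (by simp)
    · have h1 := (model.L_bit b (ofCode b.c) (code_ofCode b.c b.hc) l hl x hx).1 hb
      exact (Finset.disjoint_left.1 hd) h1 (by simp)
  h1 l hl x hx hc := by
    rw [lor_eq, Nat.testBit_or, Bool.or_eq_true]
    obtain ⟨y, hy⟩ := Finset.card_pos.1 (show 0 < _ from hc)
    rw [Finset.mem_inter, Finset.mem_insert, Finset.mem_singleton] at hy
    rcases hy with ⟨hy, rfl | rfl⟩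
    · exact Or.inl ((model.L_bit a' _ (code_ofCode a'.c a'.hc) l hl x hx).2 hy)
    · exact Or.inr ((model.L_bit b' _ (code_ofCode b'.c b'.hc) l hl x hx).2 hy)
  h2 l hl x hx hc := by
    have h4 : l ∩ {ofCode a'.c, ofCode b'.c} = {ofCode a'.c, ofCode b'.c} := by
      apply Finset.eq_of_subset_of_card_le Finset.inter_subset_right
      exact Finset.card_le_two.trans hc
    have h5 : ∀ y ∈ ({ofCode a'.c, ofCode b'.c} : Finset (Fin 4 → Fin 4)), y ∈ l := by
      intro y hy
      rw [← h4, Finset.mem_inter] at hy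
      exact hy.1
    rw [land_eq, Nat.testBit_and, Bool.and_eq_true]
    exact ⟨(model.L_bit a' _ (code_ofCode a'.c a'.hc) l hl x hx).2 (h5 _ (by simp)),
      (model.L_bit b' _ (code_ofCode b'.c b'.hc) l hl x hx).2 (h5 _ (by simp))⟩
  h3 l _ _ _ hc := by
    exfalso
    have h4 := (Finset.card_le_card (Finset.inter_subset_right (s₁ := l)
      (s₂ := {ofCode a'.c, ofCode b'.c}))).trans Finset.card_le_two
    omega

theorem root_sound {a b : Cell TT 256} {t : T TT 256} (h : rootOK a b t = true) :
    P (typ a.c b.c 0) (typ a.c b.c 1) (typ a.c b.c 2) (typ a.c b.c 3) := by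
  unfold rootOK at h
  rw [Bool.and_eq_true] at h
  obtain ⟨h0, hc⟩ := h
  simp only [Bool.and_eq_true, Bool.not_eq_true', Bool.eq_false_iff, Ne, Nat.beq_eq] at h0
  obtain ⟨ha0, hb0, ha1, hb1, _⟩ := h0
  have ha := a.hc
  have hb := b.hc
  have hne : ∀ c c' : Nat, c < 256 → c' < 256 → c ≠ c' → ofCode c ≠ ofCode c' := by
    intro c c' hc hc' hn he
    apply hn
    rw [← code_ofCode c hc, ← code_ofCode c' hc', he]
  have hdis : Disjoint ({ofCode k0.c, ofCode k85.c} : Finset (Fin 4 → Fin 4))
      {ofCode a.c, ofCode b.c} := by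
    rw [Finset.disjoint_left]
    intro x hx hx'
    rw [Finset.mem_insert, Finset.mem_singleton] at hx hx'
    rcases hx with rfl | rfl
    · rcases hx' with h2 | h2
      · exact hne 0 a.c (by norm_num) ha (fun e => ha0 e.symm) h2
      · exact hne 0 b.c (by norm_num) hb (fun e => hb0 e.symm) h2
    · rcases hx' with h2 | h2
      · exact hne 85 a.c (by norm_num) ha (fun e => ha1 e.symm) h2
      · exact hne 85 b.c (by norm_num) hb (fun e => hb1 e.symm) h2
  have h1 := (model.chk_sound t true _ _ _ _ _ _ _ hc _ _ (sta_pair hdis)).1 rfl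
  unfold P Good
  have e0 : ofCode k0.c = m1 := by
    funext i; apply Fin.ext; show 0 / 4 ^ i.val % 4 = 0; simp
  have e1 : ofCode k85.c = m2 := by
    funext i; fin_cases i <;> rfl
  have e2 : ofCode a.c = pA ![typ a.c b.c 0, typ a.c b.c 1, typ a.c b.c 2, typ a.c b.c 3] := by
    have key : ∀ i, (4 * digit a.c i + digit b.c i) / 4 % 4 = a.c / 4 ^ i % 4 := by
      intro i
      unfold digit
      omega
    funext i
    apply Fin.ext
    fin_cases i
    · exact (key 0).symm
    · exact (key 1).symm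
    · exact (key 2).symm
    · exact (key 3).symm
  have e3 : ofCode b.c = pB ![typ a.c b.c 0, typ a.c b.c 1, typ a.c b.c 2, typ a.c b.c 3] := by
    have key : ∀ i, (4 * digit a.c i + digit b.c i) % 4 = b.c / 4 ^ i % 4 := by
      intro i
      unfold digit
      omega
    funext i
    apply Fin.ext
    fin_cases i
    · exact (key 0).symm
    · exact (key 1).symm
    · exact (key 2).symm
    · exact (key 3).symm
  rw [← e0, ← e1, ← e2, ← e3]
  exact h1

/-- all certificates of the list are correct -/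
def certsOK : List (Cell TT 256 × Cell TT 256 × T TT 256) → Bool
  | [] => true
  | (a, b, t) :: cs => rootOK a b t && certsOK cs

theorem certsOK_nil : certsOK [] = true := rfl

theorem certsOK_cons {a b : Cell TT 256} {t : T TT 256}
    {cs : List (Cell TT 256 × Cell TT 256 × T TT 256)} (h : rootOK a b t = true)
    (h' : certsOK cs = true) : certsOK ((a, b, t) :: cs) = true := by
  rw [certsOK, h, h']; rfl

/-- the indices of the roots of the list -/
def bits : List (Cell TT 256 × Cell TT 256 × T TT 256) → Nat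
  | [] => 0
  | (a, b, _) :: cs =>
    Nat.lor (Nat.shiftLeft 1 (sidx (typ a.c b.c 0) (typ a.c b.c 1) (typ a.c b.c 2)
      (typ a.c b.c 3))) (bits cs)

theorem certs_sound (cs : List (Cell TT 256 × Cell TT 256 × T TT 256)) (h : certsOK cs = true) (k : Nat)
    (hk : (bits cs).testBit k = true) : PI k := by
  induction cs with
  | nil => rw [bits] at hk; simp at hk
  | cons x cs ih =>
    obtain ⟨a, b, t⟩ := x
    rw [certsOK, Bool.and_eq_true] at h
    rw [bits, lor_eq, Nat.testBit_or, shift_bit, Bool.or_eq_true, decide_eq_true_eq] at hk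
    rcases hk with rfl | hk
    · exact (inv_sidx _ _ _ _ (typ_lt a.c b.c 0) (typ_lt a.c b.c 1) (typ_lt a.c b.c 2)
        (typ_lt a.c b.c 3)).2
        (root_sound h.1)
    · exact ih h.2 hk

end Pool.Agent.TTT
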