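import Pool.Agent.TTT.Final

set_option autoImplicit false

/-!
# Positions after two moves of each player, another second move of the first player
-/

namespace Pool.Agent.TTT

/-- the first player owns `0, m`, the second player owns `r, x` -/
def Q (m r x : Fin 4 → Fin 4) : Prop := FirstWins (IsLine 4 4) {m1, m} {r, x}

/-- the action of a permutation of the coordinates and a permutation of the values -/
def pact (p q x : Fin 4 → Fin 4) : Fin 4 → Fin 4 := fun i => q (x (p i))

theorem fw_pact {p q : Fin 4 → Fin 4} (hp : Function.Injective p) (hq : Function.Injective q)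
    (hr : ∀ a, q (Fin.rev a) = Fin.rev (q a)) {a b c d : Fin 4 → Fin 4}
    (h : FirstWins (IsLine 4 4) {a, b} {c, d}) :
    FirstWins (IsLine 4 4) {pact p q a, pact p q b} {pact p q c, pact p q d} := by
  let σ : Equiv.Perm (Fin 4) := Equiv.ofBijective p (Finite.injective_iff_bijective.1 hp)
  let s : Equiv.Perm (Fin 4) := Equiv.ofBijective q (Finite.injective_iff_bijective.1 hq)
  have h1 := fw_valE s hr (fw_permE σ h)
  simp only [Finset.map_insert, Finset.map_singleton] at h1
  exact h1

/-- digit -/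
def dd (c i : Nat) : Nat := c / 4 ^ i % 4

/-- the action on the codes -/
def ga (p q c : Nat) : Nat :=
  dd q (dd c (dd p 0)) + 4 * dd q (dd c (dd p 1)) + 16 * dd q (dd c (dd p 2)) +
    64 * dd q (dd c (dd p 3))

theorem ga_eq (p q c : Nat) : code (pact (ofCode p) (ofCode q) (ofCode c)) = ga p q c := rfl

/-- `g = (p, q)` is the code of a symmetry of the position `{0, m}, {r}` -/
def GOK (m r : Nat) (g : Nat × Nat) : Prop :=
  Function.Injective (ofCode g.1) ∧ Function.Injective (ofCode g.2) ∧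
  (∀ a, ofCode g.2 (Fin.rev a) = Fin.rev (ofCode g.2 a)) ∧
  ((ga g.1 g.2 0 = 0 ∧ ga g.1 g.2 m = m) ∨ (ga g.1 g.2 0 = m ∧ ga g.1 g.2 m = 0)) ∧
  ga g.1 g.2 r = r

instance (m r : Nat) (g : Nat × Nat) : Decidable (GOK m r g) := by
  unfold GOK; infer_instance

theorem ofCode_zero : ofCode 0 = m1 := by
  funext i; apply Fin.ext; show 0 / 4 ^ i.val % 4 = 0; simp

theorem Q_act {m r : Nat} (hm : m < 256) (hr : r < 256) {g : Nat × Nat} (hg : GOK m r g)
    {b : Nat} (h : Q (ofCode m) (ofCode r) (ofCode b)) :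
    Q (ofCode m) (ofCode r) (pact (ofCode g.1) (ofCode g.2) (ofCode b)) := by
  obtain ⟨h1, h2, h3, h4, h5⟩ := hg
  have key : ∀ c c' : Nat, c' < 256 → ga g.1 g.2 c = c' →
      pact (ofCode g.1) (ofCode g.2) (ofCode c) = ofCode c' := by
    intro c c' hc' h
    apply code_inj
    rw [ga_eq, code_ofCode c' hc', h]
  have h6 := fw_pact h1 h2 h3 h
  unfold Q
  rw [← ofCode_zero] at h6 ⊢
  rw [key r r hr h5] at h6
  rcases h4 with ⟨h4, h4'⟩ | ⟨h4, h4'⟩
  · rw [key 0 0 (by norm_num) h4, key m m hm h4'] at h6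
    exact h6
  · rw [key 0 m hm h4, key m 0 (by norm_num) h4', Finset.pair_comm] at h6
    exact h6

/-- the orbit of a code -/
def orb (b : Nat) : List (Nat × Nat) → Nat
  | [] => 0
  | (p, q) :: H => Nat.lor (Nat.shiftLeft 1 (ga p q b)) (orb b H)

def orbs (H : List (Nat × Nat)) : List Nat → Nat
  | [] => 0
  | b :: l => Nat.lor (orb b H) (orbs H l)

theorem orb_spec (b : Nat) (H : List (Nat × Nat)) (c : Nat) (h : (orb b H).testBit c = true) :
    ∃ g ∈ H, ga g.1 g.2 b = c := by
  induction H with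
  | nil => rw [orb] at h; simp at h
  | cons x H ih =>
    obtain ⟨p, q⟩ := x
    rw [orb, lor_eq, Nat.testBit_or, shift_bit, Bool.or_eq_true, decide_eq_true_eq] at h
    rcases h with h | h
    · exact ⟨(p, q), by simp, h⟩
    · obtain ⟨g, hg, h1⟩ := ih h
      exact ⟨g, by simp [hg], h1⟩

theorem orbs_spec (H : List (Nat × Nat)) (l : List Nat) (c : Nat)
    (h : (orbs H l).testBit c = true) : ∃ b ∈ l, ∃ g ∈ H, ga g.1 g.2 b = c := by
  induction l with
  | nil => rw [orbs] at h; simp at h
  | cons x l ih =>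
    rw [orbs, lor_eq, Nat.testBit_or, Bool.or_eq_true] at h
    rcases h with h | h
    · exact ⟨x, by simp, orb_spec x H c h⟩
    · obtain ⟨b, hb, h1⟩ := ih h
      exact ⟨b, by simp [hb], h1⟩

/-- the orbits of the roots are everything -/
def cov2 (m r : Nat) (H : List (Nat × Nat)) (l : List Nat) : Bool :=
  Nat.beq (Nat.lor (orbs H l) (Nat.lor 1 (Nat.lor (Nat.shiftLeft 1 m) (Nat.shiftLeft 1 r))))
    (Nat.pred (Nat.shiftLeft 1 256))

theorem cover {m r : Nat} (hm : m < 256) (hr : r < 256) (H : List (Nat × Nat))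
    (hH : ∀ g ∈ H, GOK m r g) (l : List Nat)
    (hl : ∀ b ∈ l, Q (ofCode m) (ofCode r) (ofCode b)) (hc : cov2 m r H l = true)
    (x : Fin 4 → Fin 4) (h0 : x ≠ m1) (h1 : x ≠ ofCode m) (h2 : x ≠ ofCode r) :
    Q (ofCode m) (ofCode r) x := by
  unfold cov2 at hc
  rw [Nat.beq_eq] at hc
  have hx := code_lt x
  have h3 : (Nat.pred (Nat.shiftLeft 1 256)).testBit (code x) = true := by
    have : Nat.pred (Nat.shiftLeft 1 256) = 2 ^ 256 - 1 := by decide +kernel
    rw [this, Nat.testBit_two_pow_sub_one]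
    exact decide_eq_true hx
  rw [← hc, lor_eq, lor_eq, lor_eq, Nat.testBit_or, Nat.testBit_or, Nat.testBit_or, shift_bit,
    shift_bit, Bool.or_eq_true, Bool.or_eq_true, Bool.or_eq_true, decide_eq_true_eq,
    decide_eq_true_eq] at h3
  have key : ∀ c, c < 256 → c = code x → ofCode c = x := by
    intro c hc h
    apply code_inj
    rw [code_ofCode c hc, h]
  rcases h3 with h3 | h3 | h3 | h3
  · obtain ⟨b, hb, g, hg, h4⟩ := orbs_spec H l _ h3
    have h5 := Q_act hm hr (hH g hg) (hl b hb)
    have h6 : pact (ofCode g.1) (ofCode g.2) (ofCode b) = x := by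
      apply code_inj
      rw [ga_eq, h4]
    rw [h6] at h5
    exact h5
  · exfalso
    have h4 : code x = 0 := Nat.testBit_one_eq_true_iff_self_eq_zero.1 h3
    apply h0
    rw [← key 0 (by norm_num) h4.symm, ofCode_zero]
  · exact absurd (key m hm h3).symm h1
  · exact absurd (key r hr h3).symm h2

/-! ### Roots -/

def rootOK2 (m r b : Cell TT 256) (t : T TT 256) : Bool :=
  (!(Nat.beq m.c 0) && (!(Nat.beq r.c 0) && (!(Nat.beq b.c 0) && (!(Nat.beq r.c m.c) &&
    !(Nat.beq b.c m.c))))) &&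
  chk 256 4 (full 256) t true (Nat.lor k0.b m.b) (Nat.lor r.b b.b) (Nat.lor k0.L m.L)
    (Nat.lor r.L b.L) (Nat.land r.L b.L) 0 0

theorem root2_sound {m r b : Cell TT 256} {t : T TT 256} (h : rootOK2 m r b t = true) :
    Q (ofCode m.c) (ofCode r.c) (ofCode b.c) := by
  unfold rootOK2 at h
  rw [Bool.and_eq_true] at h
  obtain ⟨h0, hc⟩ := h
  simp only [Bool.and_eq_true, Bool.not_eq_true', Bool.eq_false_iff, Ne, Nat.beq_eq] at h0
  obtain ⟨hm0, hr0, hb0, hrm, hbm⟩ := h0
  have hm := m.hc
  have hr := r.hc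
  have hb := b.hc
  have hne : ∀ c c' : Nat, c < 256 → c' < 256 → c ≠ c' → ofCode c ≠ ofCode c' := by
    intro c c' hc hc' hn he
    apply hn
    rw [← code_ofCode c hc, ← code_ofCode c' hc', he]
  have hdis : Disjoint ({ofCode k0.c, ofCode m.c} : Finset (Fin 4 → Fin 4))
      {ofCode r.c, ofCode b.c} := by
    rw [Finset.disjoint_left]
    intro x hx hx'
    rw [Finset.mem_insert, Finset.mem_singleton] at hx hx'
    rcases hx with rfl | rfl
    · rcases hx' with h2 | h2
      · exact hne 0 r.c (by norm_num) hr (fun e => hr0 e.symm) h2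
      · exact hne 0 b.c (by norm_num) hb (fun e => hb0 e.symm) h2
    · rcases hx' with h2 | h2
      · exact hne m.c r.c hm hr (fun e => hrm e.symm) h2
      · exact hne m.c b.c hm hb (fun e => hbm e.symm) h2
  have h1 := (model.chk_sound t true _ _ _ _ _ _ _ hc _ _ (sta_pair hdis)).1 rfl
  unfold Q
  have e0 : ofCode k0.c = m1 := ofCode_zero
  rw [← e0]
  exact h1

/-- all positions of the list are won -/
def AllQ (m r : Nat) (l : List Nat) : Prop :=
  ∀ b ∈ l, Q (ofCode m) (ofCode r) (ofCode b)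

theorem allQ_nil (m r : Nat) : AllQ m r [] := by
  intro b hb; simp at hb

theorem allQ_cons {m r b : Cell TT 256} {t : T TT 256} {l : List Nat}
    (h : rootOK2 m r b t = true) (h' : AllQ m.c r.c l) : AllQ m.c r.c (b.c :: l) := by
  intro x hx
  rw [List.mem_cons] at hx
  rcases hx with rfl | hx
  · exact root2_sound h
  · exact h' x hx

theorem allQ_append {m r : Nat} {l l' : List Nat} (h : AllQ m r l) (h' : AllQ m r l') :
    AllQ m r (l ++ l') := by
  intro x hx
  rw [List.mem_append] at hx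
  rcases hx with hx | hx
  · exact h x hx
  · exact h' x hx

/-- the position after the first move and the reply `r` -/
theorem after_two {m r : Nat} (hm : m < 256) (hr : r < 256) (hm0 : m ≠ 0) (hr0 : r ≠ 0)
    (hmr : m ≠ r) (H : List (Nat × Nat)) (hH : ∀ g ∈ H, GOK m r g) (l : List Nat)
    (hl : AllQ m r l) (hc : cov2 m r H l = true) :
    FirstWins (IsLine 4 4) {m1} {ofCode r} := by
  have hne : ∀ c c' : Nat, c < 256 → c' < 256 → c ≠ c' → ofCode c ≠ ofCode c' := by
    intro c c' hc hc' hn he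
    apply hn
    rw [← code_ofCode c hc, ← code_ofCode c' hc', he]
  have hm1 : ofCode m ≠ m1 := by
    rw [← ofCode_zero]; exact hne m 0 hm (by norm_num) hm0
  have hr1 : ofCode r ≠ m1 := by
    rw [← ofCode_zero]; exact hne r 0 hr (by norm_num) hr0
  have hmr' : ofCode m ≠ ofCode r := hne m r hm hr hmr
  refine FirstWins.move _ _ (ofCode m) ?_ ?_ ?_ ?_ ?_
  · rw [Finset.mem_singleton]; exact hm1
  · rw [Finset.mem_singleton]; exact hmr'
  · obtain ⟨w, hw⟩ := exists_fresh {ofCode m, m1, ofCode r}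
      (lt_of_le_of_lt Finset.card_le_three (by norm_num))
    simp only [Finset.mem_insert, Finset.mem_singleton, not_or] at hw
    exact ⟨w, by simp [hw.1, hw.2.1], by simp [hw.2.2]⟩
  · intro w _ _
    exact not_small (lt_of_le_of_lt Finset.card_le_two (by norm_num))
  · intro w hw1 hw2
    simp only [Finset.mem_insert, Finset.mem_singleton, not_or] at hw1 hw2
    have h := cover hm hr H hH l hl hc w hw1.2 hw1.1 hw2
    rw [Finset.pair_comm (ofCode m) m1, Finset.pair_comm w (ofCode r)]
    exact h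

end Pool.Agent.TTT
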