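import Pool.Agent.TTT.Sym2

set_option autoImplicit false

/-!
# Transport of positions
-/

namespace Pool.Agent.TTT

/-- `g = (p, q)` is the code of a symmetry of `{0, m}` -/
def GM (m : Nat) (g : Nat × Nat) : Prop :=
  Function.Injective (ofCode g.1) ∧ Function.Injective (ofCode g.2) ∧
  (∀ a, ofCode g.2 (Fin.rev a) = Fin.rev (ofCode g.2 a)) ∧
  ((ga g.1 g.2 0 = 0 ∧ ga g.1 g.2 m = m) ∨ (ga g.1 g.2 0 = m ∧ ga g.1 g.2 m = 0))

instance (m : Nat) (g : Nat × Nat) : Decidable (GM m g) := by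
  unfold GM; infer_instance

theorem Q_comm {m r b : Fin 4 → Fin 4} (h : Q m r b) : Q m b r := by
  unfold Q at h ⊢
  rw [Finset.pair_comm b r]
  exact h

/-- transport by a symmetry of `{0, m}` -/
theorem Q_trans {m r b r' b' : Nat} (hm : m < 256) (hr : r' < 256) (hb : b' < 256)
    (g : Nat × Nat) (hg : GM m g ∧ ga g.1 g.2 r = r' ∧ ga g.1 g.2 b = b')
    (h : Q (ofCode m) (ofCode r) (ofCode b)) :
    Q (ofCode m) (ofCode r') (ofCode b') := by
  obtain ⟨⟨h1, h2, h3, h4⟩, h5, h5'⟩ := hg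
  have key : ∀ c c' : Nat, c' < 256 → ga g.1 g.2 c = c' →
      pact (ofCode g.1) (ofCode g.2) (ofCode c) = ofCode c' := by
    intro c c' hc' h
    apply code_inj
    rw [ga_eq, code_ofCode c' hc', h]
  have h6 := fw_pact h1 h2 h3 h
  unfold Q
  rw [← ofCode_zero] at h6 ⊢
  rw [key r r' hr h5, key b b' hb h5'] at h6
  rcases h4 with ⟨h4, h4'⟩ | ⟨h4, h4'⟩
  · rw [key 0 0 (by norm_num) h4, key m m hm h4'] at h6
    exact h6
  · rw [key 0 m hm h4, key m 0 (by norm_num) h4', Finset.pair_comm] at h6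
    exact h6

end Pool.Agent.TTT
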